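import Mathlib

/-!
# Toeplitz subshifts, ordered Bratteli diagrams, topological rank: definitions
-/

namespace Pool.Agent.H94.Toep

/-! ### Subshifts -/

/-- The left shift on `A^ℤ`. -/
def shift {A : Type*} (x : ℤ → A) : ℤ → A := fun n => x (n + 1)

/-- A Toeplitz sequence: not periodic, and every position lies in an arithmetic progression
(with some period `p ≥ 1`) along which the sequence is constant. -/
def IsToeplitz {A : Type*} (x : ℤ → A) : Prop :=
  (¬ ∃ p : ℕ, 1 ≤ p ∧ ∀ n : ℤ, x (n + p) = x n) ∧
    ∀ n : ℤ, ∃ p : ℕ, 1 ≤ p ∧ ∀ k : ℤ, x (n + k * p) = x n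

/-- The orbit closure of a sequence under the shift (product topology). -/
def orbitClosure {A : Type*} [TopologicalSpace A] (x : ℤ → A) : Set (ℤ → A) :=
  closure {y | ∃ k : ℤ, ∀ n : ℤ, y n = x (n + k)}

/-- A Toeplitz subshift is the orbit closure of a Toeplitz sequence. -/
def IsToeplitzSubshift {A : Type*} [TopologicalSpace A] (X : Set (ℤ → A)) : Prop :=
  ∃ x : ℤ → A, IsToeplitz x ∧ X = orbitClosure x

/-! ### Ordered Bratteli diagrams -/

/-- An ordered Bratteli diagram. The vertex set of level `n` is `V_n = {0, …, size n - 1}`, with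
`V_0` a single vertex. The edges from `V_n` to a vertex `v ∈ V_{n+1}` are labelled by the elements of
a nonempty finite set `edge n v` of natural numbers; the edge with range `v` and label `k` has
source `src n v k ∈ V_n`; the edges with range `v` are linearly ordered by their labels.
Every vertex is the source of some edge. -/
structure OrdBratteli where
  /-- number of vertices of level `n` -/
  size : ℕ → ℕ
  /-- labels of the edges with range `v ∈ V_{n+1}` -/
  edge : ℕ → ℕ → Finset ℕ
  /-- source in `V_n` of the edge with range `v ∈ V_{n+1}` and label `k` -/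
  src : ℕ → ℕ → ℕ → ℕ
  size_zero : size 0 = 1
  size_pos : ∀ n, 0 < size n
  edge_nonempty : ∀ n v, v < size (n + 1) → (edge n v).Nonempty
  src_lt : ∀ n v k, v < size (n + 1) → k ∈ edge n v → src n v k < size n
  src_surj : ∀ n u, u < size n → ∃ v k, v < size (n + 1) ∧ k ∈ edge n v ∧ src n v k = u

namespace OrdBratteli

variable (B : OrdBratteli)

/-- An infinite path: its `n`-th edge `x n = (v, k)` goes from `V_n` to `v ∈ V_{n+1}` and has label
`k`; the source of each edge is the range of the previous one. -/
def IsPath (x : ℕ → ℕ × ℕ) : Prop :=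
  (∀ n, (x n).1 < B.size (n + 1) ∧ (x n).2 ∈ B.edge n (x n).1) ∧
    ∀ n, B.src (n + 1) (x (n + 1)).1 (x (n + 1)).2 = (x n).1

/-- The space of infinite paths, with the topology induced from the product of the discrete
topologies. -/
def Path : Type := {x : ℕ → ℕ × ℕ // B.IsPath x}

instance : TopologicalSpace B.Path := instTopologicalSpaceSubtype

/-- The edge `e = (v, k)` from level `n` is maximal among the edges with the same range. -/
def IsMax (n : ℕ) (e : ℕ × ℕ) : Prop := ∀ k ∈ B.edge n e.1, k ≤ e.2

/-- The edge `e = (v, k)` from level `n` is minimal among the edges with the same range. -/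
def IsMin (n : ℕ) (e : ℕ × ℕ) : Prop := ∀ k ∈ B.edge n e.1, e.2 ≤ k

/-- `e'` is the successor of `e` among the edges from level `n` with the same range. -/
def IsSucc (n : ℕ) (e e' : ℕ × ℕ) : Prop :=
  e'.1 = e.1 ∧ e.2 < e'.2 ∧ ∀ k ∈ B.edge n e.1, e.2 < k → e'.2 ≤ k

/-- The graph of the Vershik map: `y` is the image of `x`. Either `x` is the maximal path and `y`
the minimal one, or, with `k` the first level at which the edge of `x` is not maximal, `y` has at
`k` the successor of that edge, minimal edges before `k`, and agrees with `x` after `k`. -/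
def VershikRel (x y : B.Path) : Prop :=
  ((∀ n, B.IsMax n (x.1 n)) ∧ ∀ n, B.IsMin n (y.1 n)) ∨
    ∃ k, (∀ j < k, B.IsMax j (x.1 j)) ∧ ¬ B.IsMax k (x.1 k) ∧ B.IsSucc k (x.1 k) (y.1 k) ∧
      (∀ j < k, B.IsMin j (y.1 j)) ∧ ∀ n > k, y.1 n = x.1 n

/-- `Conn n u m v`: there is a path in the diagram from `u ∈ V_n` to `v ∈ V_m`. -/
inductive Conn (n u : ℕ) : ℕ → ℕ → Prop
  | refl : Conn n u n u
  | step (m w v k : ℕ) : Conn n u m w → v < B.size (m + 1) → k ∈ B.edge m v →
      B.src m v k = w → Conn n u (m + 1) v

/-- Simple: for every `n` there is `m > n` such that every vertex of `V_n` is connected to every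
vertex of `V_m`. -/
def IsSimple : Prop :=
  ∀ n, ∃ m, n < m ∧ ∀ u v, u < B.size n → v < B.size m → B.Conn n u m v

/-- Properly ordered: there is exactly one maximal and exactly one minimal infinite path. -/
def IsProper : Prop :=
  (∃! x : B.Path, ∀ n, B.IsMax n (x.1 n)) ∧ ∃! x : B.Path, ∀ n, B.IsMin n (x.1 n)

/-- The number of paths from `V_0` to `v ∈ V_n`. -/
def pathNum : ℕ → ℕ → ℕ
  | 0, _ => 1
  | n + 1, v => ∑ k ∈ B.edge n v, pathNum n (B.src n v k)

/-- Equal path number property: for each `n ≥ 1` all vertices of `V_n` are reached by the same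
number of paths from `V_0`. -/
def HasEPN : Prop :=
  ∀ n u v, u < B.size (n + 1) → v < B.size (n + 1) → B.pathNum (n + 1) u = B.pathNum (n + 1) v

end OrdBratteli

/-- The subshift `X` is topologically conjugate to the Bratteli–Vershik system of `B`. -/
def IsConjugate {A : Type*} [TopologicalSpace A] (X : Set (ℤ → A)) (B : OrdBratteli) : Prop :=
  ∃ φ : X ≃ₜ B.Path, ∀ x y : X, (y : ℤ → A) = shift (x : ℤ → A) → B.VershikRel (φ x) (φ y)

/-- `X` is conjugate to the Bratteli–Vershik system of a simple, properly ordered Bratteli diagram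
with at most `K` vertices at every level `n ≥ 1`. -/
def RankAtMost {A : Type*} [TopologicalSpace A] (X : Set (ℤ → A)) (K : ℕ) : Prop :=
  ∃ B : OrdBratteli, B.IsSimple ∧ B.IsProper ∧ (∀ n, B.size (n + 1) ≤ K) ∧ IsConjugate X B

/-- `X` has topological rank `K`. -/
def HasTopRank {A : Type*} [TopologicalSpace A] (X : Set (ℤ → A)) (K : ℕ) : Prop :=
  IsLeast {K | RankAtMost X K} K

/-- `X` belongs to the class of strong Toeplitz subshifts of rank `K`: it is conjugate to the
Bratteli–Vershik system of a simple, properly ordered Bratteli diagram with the equal path number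
property and exactly `K` vertices at every level `n ≥ 1`. -/
def IsStrongToeplitz {A : Type*} [TopologicalSpace A] (X : Set (ℤ → A)) (K : ℕ) : Prop :=
  ∃ B : OrdBratteli, B.IsSimple ∧ B.IsProper ∧ B.HasEPN ∧ (∀ n, B.size (n + 1) = K) ∧
    IsConjugate X B

end Pool.Agent.H94.Toep
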