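import Pool.Agent.H94.Toep.RankTwoB

/-!
# The subshift of the example has topological rank two
-/

namespace Pool.Agent.H94.Toep

open Set Filter Topology

/-- The Vershik relation is closed. -/
theorem vershik_closed (B : OrdBratteli) (x y : B.Path)
    (h : ∀ n, ∃ p p' : B.Path, B.VershikRel p p' ∧ (∀ m ≤ n, p.1 m = x.1 m) ∧
      ∀ m ≤ n, p'.1 m = y.1 m) : B.VershikRel x y := by
  by_cases hmax : ∀ n, B.IsMax n (x.1 n)
  · left
    refine ⟨hmax, fun n => ?_⟩
    obtain ⟨p, p', hr, hp, hp'⟩ := h n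
    rw [← hp' n le_rfl]
    rcases hr with ⟨_, h2⟩ | ⟨k, _, h2, _, h4, _⟩
    · exact h2 n
    · rcases Nat.lt_or_ge n k with hk | hk
      · exact h4 n hk
      · exfalso
        apply h2
        rw [hp k hk]
        exact hmax k
  · right
    push Not at hmax
    classical
    obtain ⟨k, hk, hkmin⟩ : ∃ k, ¬ B.IsMax k (x.1 k) ∧ ∀ j < k, B.IsMax j (x.1 j) :=
      ⟨Nat.find hmax, Nat.find_spec hmax, fun j hj => not_not.mp (Nat.find_min hmax hj)⟩
    have key : ∀ n, k ≤ n → B.IsSucc k (x.1 k) (y.1 k) ∧ (∀ j < k, B.IsMin j (y.1 j)) ∧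
        (k < n → y.1 n = x.1 n) := by
      intro n hn
      obtain ⟨p, p', hr, hp, hp'⟩ := h n
      rcases hr with ⟨h1, _⟩ | ⟨k', h1, h2, h3, h4, h5⟩
      · exfalso
        apply hk
        rw [← hp k hn]
        exact h1 k
      · have hkk : k' = k := by
          rcases lt_trichotomy k' k with h6 | h6 | h6
          · exfalso
            apply h2
            rw [hp k' (by omega)]
            exact hkmin k' h6
          · exact h6
          · exfalso
            apply hk
            rw [← hp k hn]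
            exact h1 k h6
        subst hkk
        rw [hp k' hn, hp' k' hn] at h3
        refine ⟨h3, fun j hj => ?_, fun hlt => ?_⟩
        · rw [← hp' j (by omega)]; exact h4 j hj
        · rw [← hp n le_rfl, ← hp' n le_rfl]; exact h5 n hlt
    exact ⟨k, hkmin, hk, (key k le_rfl).1, (key k le_rfl).2.1,
      fun n hn => (key n (by omega)).2.2 hn⟩

/-- `t` approximates `z` on the window `[-W, W]`. -/
def Approx (z : XX) (W : ℕ) (t : ℤ) : Prop := ∀ i : ℤ, |i| ≤ W → (z : ℤ → Bool) i = x0 (t + i)

theorem isOpen_window (z : ℤ → Bool) (W : ℕ) :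
    IsOpen {y : ℤ → Bool | ∀ i : ℤ, |i| ≤ W → y i = z i} := by
  have h : {y : ℤ → Bool | ∀ i : ℤ, |i| ≤ W → y i = z i} =
      ⋂ i ∈ Finset.Icc (-(W : ℤ)) W, (fun y : ℤ → Bool => y i) ⁻¹' {z i} := by
    ext y
    simp only [mem_ofPred_eq, mem_iInter, Finset.mem_Icc, mem_preimage, mem_singleton_iff, abs_le]
  rw [h]
  apply isOpen_biInter_finset
  intro i _
  exact (isOpen_discrete _).preimage (continuous_apply i)

theorem exists_approx (z : XX) (W : ℕ) : ∃ t : ℤ, Approx z W t := by
  have hz : (z : ℤ → Bool) ∈ closure {y : ℤ → Bool | ∃ k : ℤ, ∀ n : ℤ, y n = x0 (n + k)} := z.2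
  rw [mem_closure_iff] at hz
  obtain ⟨y, hy1, k, hk⟩ := hz _ (isOpen_window z W) (fun i _ => rfl)
  refine ⟨k, fun i hi => ?_⟩
  rw [← hy1 i hi, hk i, add_comm]

theorem Approx.mono {z : XX} {W W' : ℕ} {t : ℤ} (h : Approx z W t) (hW : W' ≤ W) :
    Approx z W' t := fun i hi => h i (hi.trans (by exact_mod_cast hW))

/-- window size for depth `n` -/
noncomputable def wd (n : ℕ) : ℕ := (path_of_window n).choose

theorem wd_spec (n : ℕ) (t t' : ℤ) (h : ∀ i : ℤ, |i| ≤ wd n → x0 (t + i) = x0 (t' + i)) :
    ∀ m ≤ n, pseq t m = pseq t' m := (path_of_window n).choose_spec t t' h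

/-- window size sufficient for all depths `≤ n` -/
noncomputable def wm (n : ℕ) : ℕ := (Finset.range (n + 1)).sup wd

theorem wd_le_wm {m n : ℕ} (h : m ≤ n) : wd m ≤ wm n :=
  Finset.le_sup (f := wd) (Finset.mem_range.mpr (by omega))

/-- the edge sequence of a point of the subshift -/
noncomputable def gseq (z : XX) (m : ℕ) : ℕ × ℕ := pseq (exists_approx z (wd m)).choose m

theorem gseq_eq (z : XX) (n : ℕ) (t : ℤ) (h : Approx z (wm n) t) :
    ∀ m ≤ n, gseq z m = pseq t m := by
  intro m hm
  have h1 := (exists_approx z (wd m)).choose_spec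
  refine wd_spec m _ _ (fun i hi => ?_) m le_rfl
  rw [← h1 i hi, (h.mono (wd_le_wm hm)) i hi]

theorem gseq_isPath (z : XX) : BB.IsPath (gseq z) := by
  constructor
  · intro n
    obtain ⟨t, ht⟩ := exists_approx z (wm n)
    rw [gseq_eq z n t ht n le_rfl]
    exact (pseq_isPath t).1 n
  · intro n
    obtain ⟨t, ht⟩ := exists_approx z (wm (n + 1))
    rw [gseq_eq z (n + 1) t ht n (by omega), gseq_eq z (n + 1) t ht (n + 1) le_rfl]
    exact (pseq_isPath t).2 n

/-- the map from the subshift to the path space -/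
noncomputable def gmap (z : XX) : BB.Path := ⟨gseq z, gseq_isPath z⟩

theorem gmap_continuous : Continuous gmap := by
  apply Continuous.subtype_mk
  apply continuous_pi
  intro m
  apply IsLocallyConstant.continuous
  rw [IsLocallyConstant.iff_exists_open]
  intro z
  refine ⟨Subtype.val ⁻¹' {y : ℤ → Bool | ∀ i : ℤ, |i| ≤ wm m → y i = (z : ℤ → Bool) i},
    (isOpen_window z (wm m)).preimage continuous_subtype_val, fun i _ => rfl, ?_⟩
  intro z' hz'
  obtain ⟨t, ht⟩ := exists_approx z (wm m)
  have ht' : Approx z' (wm m) t := fun i hi => (hz' i hi).trans (ht i hi)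
  rw [gseq_eq z m t ht m le_rfl, gseq_eq z' m t ht' m le_rfl]

theorem gmap_injective : Function.Injective gmap := by
  intro z z' h
  apply Subtype.ext
  funext i
  have hg := gg_gt i.natAbs
  set n := i.natAbs with hn
  obtain ⟨t, ht⟩ := exists_approx z (max (wm (n + 1)) n)
  obtain ⟨t', ht'⟩ := exists_approx z' (max (wm (n + 1)) n)
  have h1 := gseq_eq z (n + 1) t (ht.mono (le_max_left _ _))
  have h2 := gseq_eq z' (n + 1) t' (ht'.mono (le_max_left _ _))
  have h3 : gseq z = gseq z' := congrArg Subtype.val h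
  have h4 := window_of_path n t t' (fun m hm => by rw [← h1 m hm, ← h2 m hm, h3]) i
    (by omega) (by omega)
  have hi : |i| ≤ (n : ℤ) := (Int.natCast_natAbs i).ge
  rw [(ht.mono (le_max_right _ _)) i hi, (ht'.mono (le_max_right _ _)) i hi, h4]

theorem gmap_xt (t : ℤ) : gmap (xt t) = pth t := by
  apply Subtype.ext
  funext m
  refine gseq_eq (xt t) m t (fun i _ => ?_) m le_rfl
  change x0 (i + t) = x0 (t + i)
  rw [add_comm]

instance : CompactSpace XX := isCompact_iff_compactSpace.mp isClosed_closure.isCompact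

theorem gmap_surjective : Function.Surjective gmap := by
  have hcl : IsClosed (range gmap) := (isCompact_range gmap_continuous).isClosed
  intro x
  have : x ∈ closure (range gmap) := by
    rw [mem_closure_iff]
    intro o ho hxo
    obtain ⟨n, hn⟩ := BB.exists_cyl ho x hxo
    obtain ⟨t, ht⟩ := dense_paths x n
    exact ⟨pth t, hn _ (fun m hm => ht m hm.le), xt t, gmap_xt t⟩
  rw [hcl.closure_eq] at this
  exact this

theorem XX_conj : IsConjugate XX BB := by
  refine ⟨Continuous.homeoOfEquivCompactToT2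
    (f := Equiv.ofBijective gmap ⟨gmap_injective, gmap_surjective⟩) gmap_continuous, ?_⟩
  intro z z' hz
  change BB.VershikRel (gmap z) (gmap z')
  apply vershik_closed
  intro n
  obtain ⟨t, ht⟩ := exists_approx z (wm n + 1)
  have ht' : Approx z' (wm n) (t + 1) := by
    intro i hi
    rw [hz]
    change (z : ℤ → Bool) (i + 1) = x0 (t + 1 + i)
    rw [ht (i + 1) (by
      have h1 := abs_add_le i 1
      push_cast
      rw [abs_one] at h1
      linarith)]
    congr 1; ring
  refine ⟨pth t, pth (t + 1), vershik_step t, fun m hm => ?_, fun m hm => ?_⟩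
  · exact (gseq_eq z n t (ht.mono (Nat.le_succ _)) m hm).symm
  · exact (gseq_eq z' n (t + 1) ht' m hm).symm

theorem XX_hasTopRank_two : HasTopRank XX 2 := by
  constructor
  · exact ⟨BB, BB_simple, BB_proper, fun _ => le_rfl, XX_conj⟩
  · intro K hK
    by_contra hcon
    push Not at hcon
    exact not_rankAtMost_one K hcon hK

end Pool.Agent.H94.Toep
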