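import Mathlib

/-!
# The index sequences of the example

Level `n` has `al n + 1` blocks of length `g n = 2^(E n)`, indexed by `0, …, al n`.
-/

namespace Pool.Agent.H94.Toep

/-- `al n = 2n+1`. -/
def al (n : ℕ) : ℕ := 2 * n + 1

theorem al_pos (n : ℕ) : 0 < al n := by unfold al; omega

theorem exists_params (n : ℕ) : ∃ f L y : ℕ,
    (L + al (n + 1)) * al n + y = 2 ^ f ∧ 3 ≤ y ∧ al (n + 1) * al n + y ≤ L := by
  set C := al (n + 1) * al n + al n + 3 + al (n + 1) with hC
  set f := al n * C + 3 with hf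
  have hpow : f < 2 ^ f := Nat.lt_two_pow_self
  have ha := al_pos n
  have hdiv : C ≤ (2 ^ f - 3) / al n := by
    rw [Nat.le_div_iff_mul_le ha, mul_comm]
    omega
  refine ⟨f, (2 ^ f - 3) / al n - al (n + 1), 3 + (2 ^ f - 3) % al n, ?_, by omega, ?_⟩
  · rw [Nat.sub_add_cancel (by omega)]
    have := Nat.div_add_mod (2 ^ f - 3) (al n)
    rw [mul_comm] at this
    omega
  · have := Nat.mod_lt (2 ^ f - 3) ha
    omega

/-- exponent of the ratio -/
noncomputable def fExp (n : ℕ) : ℕ := (exists_params n).choose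

/-- length of the long run -/
noncomputable def lRun (n : ℕ) : ℕ := (exists_params n).choose_spec.choose

/-- number of `B` blocks -/
noncomputable def yNum (n : ℕ) : ℕ := (exists_params n).choose_spec.choose_spec.choose

/-- ratio of consecutive periods -/
noncomputable def qq (n : ℕ) : ℕ := 2 ^ fExp n

theorem qq_eq (n : ℕ) : (lRun n + al (n + 1)) * al n + yNum n = qq n :=
  (exists_params n).choose_spec.choose_spec.choose_spec.1

theorem yNum_ge (n : ℕ) : 3 ≤ yNum n :=
  (exists_params n).choose_spec.choose_spec.choose_spec.2.1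

theorem lRun_ge (n : ℕ) : al (n + 1) * al n + yNum n ≤ lRun n :=
  (exists_params n).choose_spec.choose_spec.choose_spec.2.2

theorem lRun_mul_ge (n : ℕ) : lRun n ≤ lRun n * al n := Nat.le_mul_of_pos_right _ (al_pos n)

theorem qq_eq' (n : ℕ) : lRun n * al n + al (n + 1) * al n + yNum n = qq n := by
  rw [← qq_eq, add_mul]

theorem qq_ge (n : ℕ) : 2 ≤ qq n := by
  have h1 := qq_eq' n
  have h2 := yNum_ge n
  omega

/-- The block `c_i` of level `n+1`, as a sequence of blocks of level `n`. -/
noncomputable def cell (n i r : ℕ) : ℕ :=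
  if r < lRun n * al n then r % al n
  else if r = lRun n * al n then al n
  else if r < lRun n * al n + 1 + i * al n then (r - lRun n * al n - 1) % al n
  else if r = lRun n * al n + 1 + i * al n then al n
  else if r < lRun n * al n + 2 + al (n + 1) * al n then
    (r - (lRun n * al n + 1 + i * al n) - 1) % al n
  else al n

theorem cell_zero (n i : ℕ) : cell n i 0 = 0 := by
  have h1 := lRun_ge n
  have h2 := yNum_ge n
  have h3 := lRun_mul_ge n
  unfold cell
  rw [if_pos (by omega)]
  simp

theorem cell_lt (n i r : ℕ) (h : r < lRun n * al n) : cell n i r = r % al n := by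
  unfold cell; rw [if_pos h]

theorem cell_last (n i : ℕ) (hi : i ≤ al (n + 1)) : cell n i (qq n - 1) = al n := by
  have h1 := qq_eq' n
  have h2 := yNum_ge n
  have h3 : i * al n ≤ al (n + 1) * al n := Nat.mul_le_mul_right _ hi
  unfold cell
  rw [if_neg (by omega), if_neg (by omega), if_neg (by omega), if_neg (by omega),
    if_neg (by omega)]

theorem cell_le (n i r : ℕ) : cell n i r ≤ al n := by
  unfold cell
  have := al_pos n
  split_ifs <;> first | exact (Nat.mod_lt _ this).le | exact le_rfl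

/-- The step relation: `0,1,…,α-1` in succession, and after `α-1` or `α` comes `0` or `α`. -/
def Step (a u w : ℕ) : Prop := (u + 1 < a → w = u + 1) ∧ (¬ u + 1 < a → w = 0 ∨ w = a)

theorem mod_step (a r : ℕ) (ha : 0 < a) :
    (r % a + 1 < a → (r + 1) % a = r % a + 1) ∧ (¬ r % a + 1 < a → (r + 1) % a = 0) := by
  constructor
  · intro h
    rw [Nat.add_mod]
    rcases Nat.lt_or_ge 1 a with h1 | h1
    · rw [Nat.mod_eq_of_lt h1, Nat.mod_eq_of_lt h]
    · omega
  · intro h
    have h2 := Nat.mod_lt r ha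
    have h3 : r % a = a - 1 := by omega
    have h4 := Nat.div_add_mod r a
    have h5 : r + 1 = a * (r / a + 1) := by rw [mul_add, mul_one]; omega
    rw [h5]
    exact Nat.mul_mod_right _ _

/-- if `r+1` is a multiple of `a` then `r % a + 1 = a` -/
theorem mod_last (a r k : ℕ) (ha : 0 < a) (h : r + 1 = k * a) : ¬ r % a + 1 < a := by
  intro h1
  have h2 := (mod_step a r ha).1 h1
  rw [h, Nat.mul_mod_left] at h2
  omega

theorem cell_step (n i r : ℕ) (hi : i ≤ al (n + 1)) : Step (al n) (cell n i r) (cell n i (r + 1)) := by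
  have h1 := lRun_ge n
  have h2 := yNum_ge n
  have h3 := lRun_mul_ge n
  have h4 : i * al n ≤ al (n + 1) * al n := Nat.mul_le_mul_right _ hi
  have ha := al_pos n
  have hstep : ∀ u w : ℕ, w = 0 ∨ w = al n → ¬ u + 1 < al n → Step (al n) u w := by
    intro u w hw hu
    exact ⟨fun h => absurd h hu, fun _ => hw⟩
  have hmod : ∀ s : ℕ, Step (al n) (s % al n) ((s + 1) % al n) := by
    intro s
    have := mod_step (al n) s ha
    exact ⟨this.1, fun h => Or.inl (this.2 h)⟩
  have htop : ¬ al n + 1 < al n := by omega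
  rcases Nat.lt_or_ge (r + 1) (lRun n * al n) with c1 | c1
  · rw [cell_lt n i r (by omega), cell_lt n i (r + 1) c1]
    exact hmod r
  rcases Nat.eq_or_lt_of_le c1 with c2 | c2
  · -- r + 1 = lRun * al
    have e1 : cell n i (r + 1) = al n := by
      unfold cell; rw [if_neg (by omega), if_pos (by omega)]
    rw [e1, cell_lt n i r (by omega)]
    exact hstep _ _ (Or.inr rfl) (mod_last (al n) r (lRun n) ha (by omega))
  rcases Nat.eq_or_lt_of_le (Nat.lt_succ_iff.mp c2) with c3 | c3
  · -- r = lRun * al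
    have e0 : cell n i r = al n := by
      unfold cell; rw [if_neg (by omega), if_pos (by omega)]
    rw [e0]
    rcases Nat.eq_zero_or_pos (i * al n) with hi0 | hi0
    · have e1 : cell n i (r + 1) = al n := by
        unfold cell
        rw [if_neg (by omega), if_neg (by omega), if_neg (by omega), if_pos (by omega)]
      rw [e1]; exact hstep _ _ (Or.inr rfl) htop
    · have e1 : cell n i (r + 1) = 0 := by
        unfold cell
        rw [if_neg (by omega), if_neg (by omega), if_pos (by omega)]
        have : r + 1 - lRun n * al n - 1 = 0 := by omega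
        rw [this]; simp
      rw [e1]; exact hstep _ _ (Or.inl rfl) htop
  -- now r > lRun * al
  rcases Nat.lt_or_ge (r + 1) (lRun n * al n + 1 + i * al n) with c4 | c4
  · have e0 : cell n i r = (r - lRun n * al n - 1) % al n := by
      unfold cell; rw [if_neg (by omega), if_neg (by omega), if_pos (by omega)]
    have e1 : cell n i (r + 1) = (r - lRun n * al n - 1 + 1) % al n := by
      unfold cell; rw [if_neg (by omega), if_neg (by omega), if_pos (by omega)]
      congr 1; omega
    rw [e0, e1]; exact hmod _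
  rcases Nat.eq_or_lt_of_le c4 with c5 | c5
  · -- r + 1 = b; r > a so i * al > 0
    have e0 : cell n i r = (r - lRun n * al n - 1) % al n := by
      unfold cell; rw [if_neg (by omega), if_neg (by omega), if_pos (by omega)]
    have e1 : cell n i (r + 1) = al n := by
      unfold cell; rw [if_neg (by omega), if_neg (by omega), if_neg (by omega), if_pos (by omega)]
    rw [e0, e1]
    exact hstep _ _ (Or.inr rfl) (mod_last (al n) _ i ha (by omega))
  rcases Nat.eq_or_lt_of_le (Nat.lt_succ_iff.mp c5) with c6 | c6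
  · -- r = b
    have e0 : cell n i r = al n := by
      unfold cell; rw [if_neg (by omega), if_neg (by omega), if_neg (by omega), if_pos (by omega)]
    rw [e0]
    rcases Nat.lt_or_ge (r + 1) (lRun n * al n + 2 + al (n + 1) * al n) with c7 | c7
    · have e1 : cell n i (r + 1) = 0 := by
        unfold cell
        rw [if_neg (by omega), if_neg (by omega), if_neg (by omega), if_neg (by omega),
          if_pos (by omega)]
        have : r + 1 - (lRun n * al n + 1 + i * al n) - 1 = 0 := by omega
        rw [this]; simp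
      rw [e1]; exact hstep _ _ (Or.inl rfl) htop
    · have e1 : cell n i (r + 1) = al n := by
        unfold cell
        rw [if_neg (by omega), if_neg (by omega), if_neg (by omega), if_neg (by omega),
          if_neg (by omega)]
      rw [e1]; exact hstep _ _ (Or.inr rfl) htop
  -- r > b
  rcases Nat.lt_or_ge (r + 1) (lRun n * al n + 2 + al (n + 1) * al n) with c7 | c7
  · have e0 : cell n i r = (r - (lRun n * al n + 1 + i * al n) - 1) % al n := by
      unfold cell
      rw [if_neg (by omega), if_neg (by omega), if_neg (by omega), if_neg (by omega),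
          if_pos (by omega)]
    have e1 : cell n i (r + 1) = (r - (lRun n * al n + 1 + i * al n) - 1 + 1) % al n := by
      unfold cell
      rw [if_neg (by omega), if_neg (by omega), if_neg (by omega), if_neg (by omega),
          if_pos (by omega)]
      congr 1; omega
    rw [e0, e1]; exact hmod _
  · have e1 : cell n i (r + 1) = al n := by
      unfold cell
      rw [if_neg (by omega), if_neg (by omega), if_neg (by omega), if_neg (by omega),
          if_neg (by omega)]
    rw [e1]
    rcases Nat.lt_or_ge r (lRun n * al n + 2 + al (n + 1) * al n) with c8 | c8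
    · have e0 : cell n i r = (r - (lRun n * al n + 1 + i * al n) - 1) % al n := by
        unfold cell
        rw [if_neg (by omega), if_neg (by omega), if_neg (by omega), if_neg (by omega),
          if_pos (by omega)]
      rw [e0]
      refine hstep _ _ (Or.inr rfl) (mod_last (al n) _ (al (n + 1) - i) ha ?_)
      rw [Nat.sub_mul]
      omega
    · have e0 : cell n i r = al n := by
        unfold cell
        rw [if_neg (by omega), if_neg (by omega), if_neg (by omega), if_neg (by omega),
          if_neg (by omega)]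
      rw [e0]; exact hstep _ _ (Or.inr rfl) htop

/-- Marker: starting strictly inside a block, one meets an `α` within distance `L α`. -/
theorem cell_marker (n i r : ℕ) (hi : i ≤ al (n + 1)) (h0 : 0 < r) (hr : r < qq n) :
    ∃ s, r ≤ s ∧ s < qq n ∧ s < r + lRun n * al n ∧ cell n i s = al n := by
  have h1 := lRun_ge n
  have h2 := yNum_ge n
  have h3 := lRun_mul_ge n
  have h4 := qq_eq' n
  rcases Nat.lt_or_ge (lRun n * al n) r with h | h
  · exact ⟨qq n - 1, by omega, by omega, by omega, cell_last n i hi⟩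
  · refine ⟨lRun n * al n, h, by omega, by omega, ?_⟩
    unfold cell; rw [if_neg (by omega), if_pos rfl]

/-- Position at which the blocks `c_i` and `c_j`, `i < j`, differ. -/
noncomputable def dpos (n i : ℕ) : ℕ := lRun n * al n + 1 + i * al n

theorem dpos_lt (n i : ℕ) (hi : i ≤ al (n + 1)) : dpos n i < qq n := by
  have h2 := yNum_ge n
  have h4 := qq_eq' n
  have h5 : i * al n ≤ al (n + 1) * al n := Nat.mul_le_mul_right _ hi
  unfold dpos
  omega

theorem cell_dpos_self (n i : ℕ) : cell n i (dpos n i) = al n := by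
  unfold cell dpos
  rw [if_neg (by omega), if_neg (by omega), if_neg (by omega), if_pos rfl]

theorem cell_dpos_other (n i j : ℕ) (h : i < j) : cell n j (dpos n i) = 0 := by
  have ha := al_pos n
  have h5 : i * al n < j * al n := Nat.mul_lt_mul_of_pos_right h ha
  unfold cell dpos
  rw [if_neg (by omega), if_neg (by omega), if_pos (by omega)]
  have : lRun n * al n + 1 + i * al n - lRun n * al n - 1 = i * al n := by omega
  rw [this, Nat.mul_mod_left]

/-! ### The bi-infinite index sequences -/

theorem natAbs_ediv_lt (q : ℕ) (hq : 2 ≤ q) (t : ℤ) (h0 : t ≠ 0) (h1 : t ≠ -1) :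
    (t / (q : ℤ)).natAbs < t.natAbs := by
  have hq' : (2 : ℤ) ≤ q := by exact_mod_cast hq
  have e := Int.mul_ediv_add_emod t q
  have m0 := Int.emod_nonneg t (by omega : (q : ℤ) ≠ 0)
  have m1 := Int.emod_lt_of_pos t (by omega : (0 : ℤ) < q)
  set d := t / (q : ℤ) with hd
  rcases lt_or_ge 0 t with ht | ht
  · have hd0 : 0 ≤ d := Int.ediv_nonneg ht.le (by omega)
    have hdt : d < t := by
      by_contra hcon
      push Not at hcon
      have : (q : ℤ) * t ≤ (q : ℤ) * d := mul_le_mul_of_nonneg_left hcon (by omega)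
      nlinarith
    omega
  · have ht2 : t ≤ -2 := by omega
    have hdneg : d < 0 := by
      by_contra hcon
      push Not at hcon
      have : 0 ≤ (q : ℤ) * d := mul_nonneg (by omega) hcon
      omega
    have hdt : t < d := by
      by_contra hcon
      push Not at hcon
      have : (q : ℤ) * d ≤ (q : ℤ) * t := mul_le_mul_of_nonneg_left hcon (by omega)
      nlinarith
    omega

/-- Index, at level `n`, of the block containing `[t g_n, (t+1) g_n)`. -/
noncomputable def idx (n : ℕ) (t : ℤ) : ℕ :=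
  if _h0 : t = 0 then 0
  else if _h1 : t = -1 then al n
  else cell n (idx (n + 1) (t / (qq n : ℤ))) (t % (qq n : ℤ)).toNat
termination_by t.natAbs
decreasing_by exact natAbs_ediv_lt _ (qq_ge n) t _h0 _h1

theorem idx_zero (n : ℕ) : idx n 0 = 0 := by
  rw [idx]; simp

theorem idx_neg_one (n : ℕ) : idx n (-1) = al n := by
  rw [idx]; simp

theorem idx_le (n : ℕ) (t : ℤ) : idx n t ≤ al n := by
  rw [idx]
  split_ifs
  · exact Nat.zero_le _
  · exact le_rfl
  · exact cell_le _ _ _

theorem idx_eq (n : ℕ) (t : ℤ) :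
    idx n t = cell n (idx (n + 1) (t / (qq n : ℤ))) (t % (qq n : ℤ)).toNat := by
  by_cases h0 : t = 0
  · subst h0
    simp [idx_zero, cell_zero]
  by_cases h1 : t = -1
  · subst h1
    have hq := qq_ge n
    have hu := (Int.ediv_emod_unique (a := -1) (b := (qq n : ℤ)) (r := (qq n : ℤ) - 1) (q := -1)
      (by omega)).2 ⟨by ring, by omega, by omega⟩
    rw [hu.1, hu.2, idx_neg_one, idx_neg_one]
    have e2 : ((qq n : ℤ) - 1).toNat = qq n - 1 := by omega
    rw [e2, cell_last n _ le_rfl]
  · conv_lhs => rw [idx]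
    rw [dif_neg h0, dif_neg h1]

theorem idx_block (n : ℕ) (k : ℤ) (r : ℕ) (hr : r < qq n) :
    idx n (k * (qq n : ℤ) + r) = cell n (idx (n + 1) k) r := by
  rw [idx_eq]
  have hu := (Int.ediv_emod_unique (a := k * (qq n : ℤ) + r) (b := (qq n : ℤ)) (r := (r : ℤ))
    (q := k) (by omega)).2 ⟨by ring, by omega, by omega⟩
  rw [hu.1, hu.2, Int.toNat_natCast]

theorem idx_mul (n : ℕ) (k : ℤ) : idx n (k * (qq n : ℤ)) = 0 := by
  have h := idx_block n k 0 (by have := qq_ge n; omega)
  rw [cell_zero] at h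
  simpa using h

theorem idx_mul_sub_one (n : ℕ) (k : ℤ) : idx n (k * (qq n : ℤ) - 1) = al n := by
  have hq := qq_ge n
  have h := idx_block n (k - 1) (qq n - 1) (by omega)
  rw [cell_last n _ (idx_le (n + 1) _)] at h
  rw [← h]
  congr 1
  have : ((qq n - 1 : ℕ) : ℤ) = (qq n : ℤ) - 1 := by omega
  rw [this]; ring

theorem exists_block (n : ℕ) (t : ℤ) : ∃ k : ℤ, ∃ r : ℕ, r < qq n ∧ t = k * (qq n : ℤ) + r := by
  have hq := qq_ge n
  have m0 := Int.emod_nonneg t (by omega : (qq n : ℤ) ≠ 0)
  have m1 := Int.emod_lt_of_pos t (by omega : (0 : ℤ) < qq n)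
  refine ⟨t / (qq n : ℤ), (t % (qq n : ℤ)).toNat, by omega, ?_⟩
  rw [Int.toNat_of_nonneg m0, mul_comm]
  exact (Int.mul_ediv_add_emod t _).symm

theorem idx_step (n : ℕ) (t : ℤ) : Step (al n) (idx n t) (idx n (t + 1)) := by
  obtain ⟨k, r, hr, rfl⟩ := exists_block n t
  have ha := al_pos n
  rcases Nat.lt_or_ge (r + 1) (qq n) with h | h
  · have h1 := idx_block n k (r + 1) h
    rw [idx_block n k r hr, show k * (qq n : ℤ) + (r : ℤ) + 1 = k * (qq n : ℤ) + ((r + 1 : ℕ) : ℤ) by
      push_cast; ring, h1]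
    exact cell_step n _ r (idx_le (n + 1) k)
  · have h1 : k * (qq n : ℤ) + (r : ℤ) + 1 = (k + 1) * (qq n : ℤ) := by
      have : (r : ℤ) + 1 = qq n := by omega
      linear_combination this
    have h2 : k * (qq n : ℤ) + (r : ℤ) = (k + 1) * (qq n : ℤ) - 1 := by omega
    rw [h1, h2, idx_mul, idx_mul_sub_one]
    exact ⟨fun hcon => by omega, fun _ => Or.inl rfl⟩

theorem idx_succ_of_lt (n : ℕ) (t : ℤ) (h : idx n t + 1 < al n) : idx n (t + 1) = idx n t + 1 :=
  (idx_step n t).1 h

theorem idx_succ_of_ge (n : ℕ) (t : ℤ) (h : al n ≤ idx n t + 1) :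
    idx n (t + 1) = 0 ∨ idx n (t + 1) = al n :=
  (idx_step n t).2 (by omega)

/-- walking forward -/
theorem idx_forward (n : ℕ) (t : ℤ) (j : ℕ) (h : idx n t + j < al n) :
    idx n (t + j) = idx n t + j := by
  induction j with
  | zero => simp
  | succ j ih =>
    have h1 := ih (by omega)
    have h2 := idx_succ_of_lt n (t + j) (by omega)
    rw [show t + ((j + 1 : ℕ) : ℤ) = t + j + 1 by push_cast; ring, h2, h1]
    ring

/-- walking backward -/
theorem idx_pred (n : ℕ) (t : ℤ) (h0 : 0 < idx n t) (h1 : idx n t < al n) :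
    idx n (t - 1) = idx n t - 1 := by
  have h2 := idx_step n (t - 1)
  rw [show t - 1 + 1 = t by ring] at h2
  by_cases h : idx n (t - 1) + 1 < al n
  · have := h2.1 h; omega
  · have := h2.2 h; omega

theorem idx_backward (n : ℕ) (t : ℤ) (j : ℕ) (h0 : j ≤ idx n t) (h1 : idx n t < al n) :
    idx n (t - j) = idx n t - j := by
  induction j with
  | zero => simp
  | succ j ih =>
    have h2 := ih (by omega)
    have h3 := idx_pred n (t - j) (by omega) (by omega)
    rw [show t - ((j + 1 : ℕ) : ℤ) = t - j - 1 by push_cast; ring, h3, h2]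
    omega

theorem idx_small (n j : ℕ) (h : j < al n) : idx n (j : ℤ) = j := by
  have := idx_forward n 0 j (by rw [idx_zero]; omega)
  rw [idx_zero] at this
  simpa using this

/-- the first `L α` cells of a block are not `α` -/
theorem idx_run (n : ℕ) (k : ℤ) (j : ℕ) (h : j < lRun n * al n) :
    idx n (k * (qq n : ℤ) + j) = j % al n := by
  have h4 := qq_eq' n
  have h5 := yNum_ge n
  rw [idx_block n k j (by omega), cell_lt n _ j h]

/-- recognition of block starts -/
theorem dvd_of_run (n : ℕ) (m : ℤ) (h : ∀ j : ℕ, j < lRun n * al n → idx n (m + j) ≠ al n) :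
    ∃ k : ℤ, m = k * (qq n : ℤ) := by
  obtain ⟨k, r, hr, rfl⟩ := exists_block n m
  rcases Nat.eq_zero_or_pos r with h0 | h0
  · exact ⟨k, by rw [h0]; simp⟩
  · exfalso
    obtain ⟨s, hs1, hs2, hs3, hs4⟩ := cell_marker n (idx (n + 1) k) r (idx_le (n + 1) k) h0 hr
    apply h (s - r) (by omega)
    rw [show k * (qq n : ℤ) + (r : ℤ) + ((s - r : ℕ) : ℤ) = k * (qq n : ℤ) + (s : ℤ) by
      rw [Nat.cast_sub hs1]; ring, idx_block n k s hs2, hs4]

/-- blocks with distinct indices differ somewhere -/
theorem idx_sep_lt (n : ℕ) (k k' : ℤ) (h : idx (n + 1) k < idx (n + 1) k') :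
    idx n (k * (qq n : ℤ) + dpos n (idx (n + 1) k)) = al n ∧
      idx n (k' * (qq n : ℤ) + dpos n (idx (n + 1) k)) = 0 := by
  have hlt := dpos_lt n _ (idx_le (n + 1) k)
  rw [idx_block n k _ hlt, idx_block n k' _ hlt]
  exact ⟨cell_dpos_self n _, cell_dpos_other n _ _ h⟩

theorem idx_sep (n : ℕ) (k k' : ℤ) (h : idx (n + 1) k ≠ idx (n + 1) k') :
    ∃ r : ℕ, r < qq n ∧ idx n (k * (qq n : ℤ) + r) ≠ idx n (k' * (qq n : ℤ) + r) := by
  have ha := al_pos n
  rcases Nat.lt_or_gt_of_ne h with h1 | h1
  · refine ⟨dpos n (idx (n + 1) k), dpos_lt n _ (idx_le (n + 1) k), ?_⟩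
    have := idx_sep_lt n k k' h1
    rw [this.1, this.2]; omega
  · refine ⟨dpos n (idx (n + 1) k'), dpos_lt n _ (idx_le (n + 1) k'), ?_⟩
    have := idx_sep_lt n k' k h1
    rw [this.1, this.2]; omega

/-! ### Periods and the binary sequence -/

/-- `E n` -/
noncomputable def eExp : ℕ → ℕ
  | 0 => 0
  | n + 1 => eExp n + fExp n

/-- `g n = 2 ^ (E n)` -/
noncomputable def gg (n : ℕ) : ℕ := 2 ^ eExp n

theorem gg_zero : gg 0 = 1 := by simp [gg, eExp]

theorem gg_succ (n : ℕ) : gg (n + 1) = gg n * qq n := by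
  unfold gg qq; rw [eExp, pow_add]

theorem gg_pos (n : ℕ) : 0 < gg n := by unfold gg; positivity

theorem fExp_pos (n : ℕ) : 1 ≤ fExp n := by
  by_contra h
  have h1 : fExp n = 0 := by omega
  have h2 := qq_ge n
  unfold qq at h2
  rw [h1] at h2
  norm_num at h2

theorem eExp_ge (n : ℕ) : n ≤ eExp n := by
  induction n with
  | zero => exact Nat.zero_le _
  | succ n ih =>
    have := fExp_pos n
    rw [eExp]; omega

theorem gg_gt (n : ℕ) : n < gg n :=
  lt_of_lt_of_le Nat.lt_two_pow_self (Nat.pow_le_pow_right (by norm_num) (eExp_ge n))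

/-- The Toeplitz sequence. -/
noncomputable def x0 (t : ℤ) : Bool := decide (idx 0 t = 1)

theorem x0_eq_iff (t t' : ℤ) : x0 t = x0 t' ↔ idx 0 t = idx 0 t' := by
  have h1 := idx_le 0 t
  have h2 := idx_le 0 t'
  have h3 : al 0 = 1 := rfl
  unfold x0
  constructor
  · intro h
    have := decide_eq_decide.mp h
    omega
  · intro h
    rw [h]

theorem split_gg (n : ℕ) (k r : ℤ) (h0 : 0 ≤ r) (h1 : r < gg (n + 1)) :
    ∃ ρ : ℕ, ∃ s : ℤ, ρ < qq n ∧ 0 ≤ s ∧ s < gg n ∧
      r = ρ * (gg n : ℤ) + s ∧ k * (gg (n + 1) : ℤ) + r = (k * (qq n : ℤ) + ρ) * (gg n : ℤ) + s := by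
  have hg := gg_pos n
  have hgs := gg_succ n
  have m0 := Int.emod_nonneg r (by omega : (gg n : ℤ) ≠ 0)
  have m1 := Int.emod_lt_of_pos r (by omega : (0 : ℤ) < gg n)
  have e := Int.mul_ediv_add_emod r (gg n : ℤ)
  have d0 : 0 ≤ r / (gg n : ℤ) := Int.ediv_nonneg h0 (by omega)
  have d1 : r / (gg n : ℤ) < qq n := by
    apply Int.ediv_lt_of_lt_mul (by omega)
    rw [hgs] at h1
    push_cast at h1
    linarith
  refine ⟨(r / (gg n : ℤ)).toNat, r % (gg n : ℤ), by omega, m0, m1, ?_, ?_⟩
  · rw [Int.toNat_of_nonneg d0]; linarith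
  · rw [Int.toNat_of_nonneg d0, hgs]
    push_cast
    linear_combination -e

/-- Blocks of level `n` with the same index are equal. -/
theorem copy (n : ℕ) : ∀ k k' : ℤ, idx n k = idx n k' → ∀ r : ℤ, 0 ≤ r → r < gg n →
    idx 0 (k * (gg n : ℤ) + r) = idx 0 (k' * (gg n : ℤ) + r) := by
  induction n with
  | zero =>
    intro k k' h r h0 h1
    rw [gg_zero] at h1 ⊢
    have : r = 0 := by omega
    subst this
    simpa using h
  | succ n ih =>
    intro k k' h r h0 h1
    obtain ⟨ρ, s, hρ, hs0, hs1, hr, e⟩ := split_gg n k r h0 h1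
    have e' : k' * (gg (n + 1) : ℤ) + r = (k' * (qq n : ℤ) + ρ) * (gg n : ℤ) + s := by
      rw [gg_succ, hr]; push_cast; ring
    rw [e, e']
    apply ih _ _ _ s hs0 hs1
    rw [idx_block n k ρ hρ, idx_block n k' ρ hρ, h]

/-- Blocks of level `n` with distinct indices are distinct. -/
theorem sep (n : ℕ) : ∀ k k' : ℤ, idx n k ≠ idx n k' → ∃ r : ℤ, 0 ≤ r ∧ r < gg n ∧
    idx 0 (k * (gg n : ℤ) + r) ≠ idx 0 (k' * (gg n : ℤ) + r) := by
  induction n with
  | zero =>
    intro k k' h
    refine ⟨0, le_rfl, by rw [gg_zero]; norm_num, ?_⟩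
    rw [gg_zero]
    simpa using h
  | succ n ih =>
    intro k k' h
    obtain ⟨ρ, hρ, hne⟩ := idx_sep n k k' h
    obtain ⟨s, hs0, hs1, hs2⟩ := ih _ _ hne
    have hg := gg_pos n
    have hgs := gg_succ n
    refine ⟨ρ * (gg n : ℤ) + s, by positivity, ?_, ?_⟩
    · rw [hgs]; push_cast
      have h1 : (ρ : ℤ) + 1 ≤ qq n := by omega
      have h2 : ((ρ : ℤ) + 1) * (gg n : ℤ) ≤ (qq n : ℤ) * gg n :=
        mul_le_mul_of_nonneg_right h1 (by omega)
      linarith
    · rw [hgs]; push_cast
      rw [show k * ((gg n : ℤ) * (qq n : ℤ)) + ((ρ : ℤ) * (gg n : ℤ) + s) =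
        (k * (qq n : ℤ) + ρ) * (gg n : ℤ) + s by ring,
        show k' * ((gg n : ℤ) * (qq n : ℤ)) + ((ρ : ℤ) * (gg n : ℤ) + s) =
        (k' * (qq n : ℤ) + ρ) * (gg n : ℤ) + s by ring]
      exact hs2

/-- Toeplitz structure: the sequence looks the same near `0` and near every multiple of
`g (n+1)`. -/
theorem x0_near (n : ℕ) (j i : ℤ) (h0 : -(gg n : ℤ) ≤ i) (h1 : i < gg n) :
    x0 (j * (gg (n + 1) : ℤ) + i) = x0 i := by
  rw [x0_eq_iff]
  have hgs := gg_succ n
  rcases lt_or_ge i 0 with h | h
  · have e1 : j * (gg (n + 1) : ℤ) + i = (j * (qq n : ℤ) - 1) * (gg n : ℤ) + (i + gg n) := by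
      rw [hgs]; push_cast; ring
    have e2 : i = (-1) * (gg n : ℤ) + (i + gg n) := by ring
    rw [e1]
    conv_rhs => rw [e2]
    apply copy n _ _ _ _ (by omega) (by omega)
    rw [idx_mul_sub_one, idx_neg_one]
  · have e1 : j * (gg (n + 1) : ℤ) + i = (j * (qq n : ℤ)) * (gg n : ℤ) + i := by
      rw [hgs]; push_cast; ring
    have e2 : i = 0 * (gg n : ℤ) + i := by ring
    rw [e1]
    conv_rhs => rw [e2]
    apply copy n _ _ _ _ h (by omega)
    rw [idx_mul, idx_zero]

end Pool.Agent.H94.Toep
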