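import Pool.Agent.H94.Toep.Index
import Pool.Agent.H94.Toep.Defs

/-!
# The number of aligned words of length `2^e` tends to infinity; `x0` is a Toeplitz sequence
-/

namespace Pool.Agent.H94.Toep

theorem mul_mod_inj (a f u w : ℕ) (ha : ∃ n, a = 2 * n + 1) (hu : u < a) (hw : w < a)
    (h : (u * 2 ^ f) % a = (w * 2 ^ f) % a) : u = w := by
  have hc : Nat.gcd a (2 ^ f) = 1 := by
    obtain ⟨n, rfl⟩ := ha
    apply Nat.Coprime.pow_right
    exact Nat.coprime_two_right.2 ⟨n, rfl⟩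
  have h1 : u * 2 ^ f ≡ w * 2 ^ f [MOD a] := h
  have h2 := Nat.ModEq.cancel_right_of_coprime hc h1
  have h3 : u % a = w % a := h2
  rwa [Nat.mod_eq_of_lt hu, Nat.mod_eq_of_lt hw] at h3

theorem many_words_level (M e : ℕ) (h1 : eExp M ≤ e) (h2 : e < eExp (M + 1)) :
    ∃ J : ℕ → ℤ, ∀ u, u < al M → ∀ w, w < al M → u < w →
      ∃ r : ℤ, 0 ≤ r ∧ r < 2 ^ e ∧ x0 (J u * 2 ^ e + r) ≠ x0 (J w * 2 ^ e + r) := by
  obtain ⟨f, rfl⟩ := Nat.exists_eq_add_of_le h1
  have hf : f < fExp M := by rw [eExp] at h2; omega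
  have hgg : (2 : ℤ) ^ (eExp M + f) = 2 ^ f * (gg M : ℤ) := by
    unfold gg; push_cast; rw [pow_add]; ring
  have hg := gg_pos M
  have hq := qq_eq' M
  have hy := yNum_ge M
  have hL := lRun_ge M
  have ha := al_pos M
  rcases Nat.lt_or_ge (lRun M) (2 ^ f) with hs | hs
  · -- long blocks
    obtain ⟨f', hf'⟩ := Nat.exists_eq_add_of_lt hf
    have hqq : (qq M : ℤ) = 2 ^ f * 2 ^ (f' + 1) := by
      unfold qq; rw [hf']; push_cast; rw [← pow_add]; ring_nf
    have hqn : 2 ^ f ≤ qq M := by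
      unfold qq; exact Nat.pow_le_pow_right (by norm_num) hf.le
    refine ⟨fun u => ((u : ℤ) + 1) * 2 ^ (f' + 1) - 1, ?_⟩
    intro u hu w hw huw
    have hal : al M < al (M + 1) := by unfold al; omega
    have iu := idx_small (M + 1) u (by omega)
    have iw := idx_small (M + 1) w (by omega)
    have hsep := idx_sep_lt M u w (by rw [iu, iw]; exact huw)
    rw [iu] at hsep
    have hdl := dpos_lt M u (by omega)
    have hdg : qq M ≤ dpos M u + 2 ^ f := by
      unfold dpos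
      have : 0 ≤ u * al M := Nat.zero_le _
      omega
    obtain ⟨r, hr0, hr1, hr2⟩ := sep M (u * (qq M : ℤ) + dpos M u) (w * (qq M : ℤ) + dpos M u)
      (by rw [hsep.1, hsep.2]; omega)
    have hpow : ((2 ^ f : ℕ) : ℤ) = (2 : ℤ) ^ f := by push_cast; ring
    have hqn' : (2 : ℤ) ^ f ≤ qq M := by rw [← hpow]; exact_mod_cast hqn
    have hdg' : (qq M : ℤ) ≤ dpos M u + 2 ^ f := by rw [← hpow]; exact_mod_cast hdg
    have hdl' : (dpos M u : ℤ) + 1 ≤ qq M := by exact_mod_cast hdl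
    refine ⟨((dpos M u : ℤ) - (qq M - 2 ^ f)) * gg M + r, ?_, ?_, ?_⟩
    · have : 0 ≤ ((dpos M u : ℤ) - (qq M - 2 ^ f)) * gg M :=
        mul_nonneg (by linarith) (by positivity)
      linarith
    · rw [hgg]
      have h3 : ((dpos M u : ℤ) - (qq M - 2 ^ f) + 1) * gg M ≤ 2 ^ f * gg M :=
        mul_le_mul_of_nonneg_right (by linarith) (by positivity)
      linarith
    · rw [Ne, x0_eq_iff, hgg]
      have e1 : ∀ v : ℕ, (((v : ℤ) + 1) * 2 ^ (f' + 1) - 1) * (2 ^ f * (gg M : ℤ)) +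
          (((dpos M u : ℤ) - (qq M - 2 ^ f)) * gg M + r) =
          (v * (qq M : ℤ) + dpos M u) * (gg M : ℤ) + r := by
        intro v
        rw [hqq]; ring
      rw [e1 u, e1 w]
      exact hr2
  · -- short blocks
    refine ⟨fun u => (u : ℤ), ?_⟩
    intro u hu w hw huw
    have hrun : ∀ v : ℕ, v < al M → idx M ((v : ℤ) * 2 ^ f) = (v * 2 ^ f) % al M := by
      intro v hv
      have := idx_run M 0 (v * 2 ^ f) (by
        calc v * 2 ^ f < al M * 2 ^ f := Nat.mul_lt_mul_of_pos_right hv (by positivity)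
          _ ≤ al M * lRun M := Nat.mul_le_mul_left _ hs
          _ = lRun M * al M := mul_comm _ _)
      rw [zero_mul, zero_add] at this
      rw [← this]
      push_cast
      rfl
    obtain ⟨r, hr0, hr1, hr2⟩ := sep M ((u : ℤ) * 2 ^ f) ((w : ℤ) * 2 ^ f) (by
      rw [hrun u hu, hrun w hw]
      intro hcon
      have := mul_mod_inj (al M) f u w ⟨M, rfl⟩ hu hw hcon
      omega)
    refine ⟨r, hr0, ?_, ?_⟩
    · rw [hgg]
      have h3 : (1 : ℤ) ≤ 2 ^ f := one_le_pow₀ (by norm_num)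
      have h4 : 1 * (gg M : ℤ) ≤ 2 ^ f * gg M := mul_le_mul_of_nonneg_right h3 (by positivity)
      linarith
    · rw [Ne, x0_eq_iff, hgg]
      rw [show (u : ℤ) * (2 ^ f * (gg M : ℤ)) = (u : ℤ) * 2 ^ f * (gg M : ℤ) by ring,
        show (w : ℤ) * (2 ^ f * (gg M : ℤ)) = (w : ℤ) * 2 ^ f * (gg M : ℤ) by ring]
      exact hr2

/-- For every `K` and every large `e` there are at least `K` distinct words of length `2^e` of `x0`
at positions which are multiples of `2^e`. -/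
theorem many_words (K : ℕ) : ∃ e0 : ℕ, ∀ e, e0 ≤ e → ∃ J : ℕ → ℤ, ∀ u, u < K → ∀ w, w < K →
    u ≠ w → ∃ r : ℤ, 0 ≤ r ∧ r < 2 ^ e ∧ x0 (J u * 2 ^ e + r) ≠ x0 (J w * 2 ^ e + r) := by
  refine ⟨eExp K, fun e he => ?_⟩
  obtain ⟨M, hKM, hM1, hM2⟩ : ∃ M, K ≤ M ∧ eExp M ≤ e ∧ e < eExp (M + 1) := by
    have hKe : K ≤ e := (eExp_ge K).trans he
    set M := Nat.findGreatest (fun m => eExp m ≤ e) e with hM
    have h1 : eExp M ≤ e := Nat.findGreatest_spec (P := fun m => eExp m ≤ e) hKe he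
    have h2 : K ≤ M := Nat.le_findGreatest hKe he
    refine ⟨M, h2, h1, ?_⟩
    by_contra hcon
    push Not at hcon
    have h3 : M + 1 ≤ e := (eExp_ge (M + 1)).trans hcon
    have h4 : M + 1 ≤ M := Nat.le_findGreatest (P := fun m => eExp m ≤ e) h3 hcon
    omega
  obtain ⟨J, hJ⟩ := many_words_level M e hM1 hM2
  have hal : K ≤ al M := by unfold al; omega
  refine ⟨J, fun u hu w hw huw => ?_⟩
  rcases Nat.lt_or_gt_of_ne huw with h | h
  · exact hJ u (by omega) w (by omega) h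
  · obtain ⟨r, h0, h1, h2⟩ := hJ w (by omega) u (by omega) h
    exact ⟨r, h0, h1, fun hc => h2 hc.symm⟩

theorem periodic_mul {A : Type*} (x : ℤ → A) (p : ℕ) (h : ∀ n : ℤ, x (n + p) = x n) (n k : ℤ) :
    x (n + k * p) = x n := by
  induction k using Int.induction_on with
  | zero => simp
  | succ k ih =>
    rw [show n + ((k : ℤ) + 1) * p = (n + k * p) + p by ring, h, ih]
  | pred k ih =>
    rw [← ih, show n + (-(k : ℤ)) * p = (n + (-(k : ℤ) - 1) * p) + p by ring, h]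

theorem x0_not_periodic : ¬ ∃ p : ℕ, 1 ≤ p ∧ ∀ n : ℤ, x0 (n + p) = x0 n := by
  rintro ⟨p, hp, hper⟩
  obtain ⟨e0, he0⟩ := many_words (p + 1)
  obtain ⟨J, hJ⟩ := he0 e0 le_rfl
  have hpz : (0 : ℤ) < p := by exact_mod_cast hp
  obtain ⟨u, hu, w, hw, huw, heq⟩ := Finset.exists_ne_map_eq_of_card_lt_of_maps_to
    (s := Finset.range (p + 1)) (t := Finset.range p)
    (f := fun u => ((J u * 2 ^ e0) % (p : ℤ)).toNat) (by simp) (by
      intro u _
      have m0 := Int.emod_nonneg (J u * 2 ^ e0) hpz.ne'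
      have m1 := Int.emod_lt_of_pos (J u * 2 ^ e0) hpz
      simp only [Finset.coe_range, Set.mem_Iio]
      omega)
  rw [Finset.mem_range] at hu hw
  obtain ⟨r, _, _, hr⟩ := hJ u hu w hw huw
  apply hr
  have m0 := Int.emod_nonneg (J u * 2 ^ e0) hpz.ne'
  have m1 := Int.emod_nonneg (J w * 2 ^ e0) hpz.ne'
  have h1 : (J u * 2 ^ e0) % (p : ℤ) = (J w * 2 ^ e0) % (p : ℤ) := by
    omega
  have e1 := Int.mul_ediv_add_emod (J u * 2 ^ e0) p
  have e2 := Int.mul_ediv_add_emod (J w * 2 ^ e0) p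
  have h2 : J u * 2 ^ e0 + r = (J w * 2 ^ e0 + r) +
      ((J u * 2 ^ e0) / (p : ℤ) - (J w * 2 ^ e0) / (p : ℤ)) * p := by
    linear_combination -e1 + e2 + h1
  rw [h2, periodic_mul x0 p hper]

/-- `x0` agrees, on windows around multiples of a suitable power of two, with itself near `0`. -/
theorem x0_toeplitz_window (W : ℕ) : ∃ E : ℕ, ∀ j i : ℤ, |i| ≤ W → x0 (j * 2 ^ E + i) = x0 i := by
  refine ⟨eExp (W + 1), fun j i hi => ?_⟩
  have h := gg_gt W
  have hi' := abs_le.mp hi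
  have := x0_near W j i (by omega) (by omega)
  rw [← this]
  unfold gg
  push_cast
  rfl

theorem x0_isToeplitz : IsToeplitz x0 := by
  refine ⟨x0_not_periodic, fun n => ?_⟩
  obtain ⟨E, hE⟩ := x0_toeplitz_window n.natAbs
  refine ⟨2 ^ E, Nat.one_le_two_pow, fun k => ?_⟩
  have := hE k n (Int.natCast_natAbs n).ge
  rw [← this]
  congr 1
  push_cast
  ring

/-- The subshift of the example. -/
def XX : Set (ℤ → Bool) := orbitClosure x0

theorem XX_isToeplitzSubshift : IsToeplitzSubshift XX := ⟨x0, x0_isToeplitz, rfl⟩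

end Pool.Agent.H94.Toep
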