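import Pool.Agent.H94.Toep.Vershik
import Pool.Agent.H94.Toep.Words

/-!
# The subshift of the example is not strong Toeplitz of any finite rank
-/

namespace Pool.Agent.H94.Toep

open Set Filter Topology

/-- The point `S^t x0`. -/
noncomputable def xt (t : ℤ) : XX :=
  ⟨fun n => x0 (n + t), subset_closure ⟨t, fun _ => rfl⟩⟩

theorem xt_succ (t : ℤ) : ((xt (t + 1) : XX) : ℤ → Bool) = shift (xt t : ℤ → Bool) := by
  funext n
  change x0 (n + (t + 1)) = x0 (n + 1 + t)
  congr 1; ring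

section

variable {B : OrdBratteli} (hepn : B.HasEPN) (y : ℤ → B.Path)
  (hV : ∀ t, B.VershikRel (y t) (y (t + 1)))

include hepn in
theorem pathNum_eq (n v : ℕ) (hv : v < B.size n) : B.pathNum n v = B.pathNum n 0 := by
  cases n with
  | zero => rfl
  | succ n => exact hepn n v 0 hv (B.size_pos _)

include hepn in
theorem pos_lt_P (n : ℕ) (t : ℤ) : B.pos (y t) n < B.pathNum n 0 := by
  have := B.pos_lt (y t) n
  rwa [pathNum_eq hepn n _ (B.vert_lt (y t) n)] at this

include hepn hV in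
theorem pos_step (n : ℕ) (t : ℤ) :
    (B.pos (y t) n + 1 < B.pathNum n 0 → B.vert (y (t + 1)) n = B.vert (y t) n ∧
      B.pos (y (t + 1)) n = B.pos (y t) n + 1) ∧
    (B.pos (y t) n + 1 = B.pathNum n 0 → B.pos (y (t + 1)) n = 0 ∧
      ∀ j < n, B.IsMax j ((y t).1 j)) := by
  rcases B.vershik_cases (hV t) n with ⟨h1, h2⟩ | ⟨h1, h2⟩
  · have h3 := B.pos_max (y t) n h1
    have h4 := B.pos_min (y (t + 1)) n h2
    rw [pathNum_eq hepn n _ (B.vert_lt (y t) n)] at h3
    exact ⟨fun h => by omega, fun _ => ⟨h4, h1⟩⟩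
  · have h3 := pos_lt_P hepn y n (t + 1)
    exact ⟨fun _ => ⟨h1, h2⟩, fun h => by omega⟩

include hepn hV in
theorem pos_mod (n : ℕ) (t : ℤ) :
    ∃ m : ℤ, (B.pos (y t) n : ℤ) = B.pos (y 0) n + t + m * (B.pathNum n 0 : ℤ) := by
  induction t using Int.induction_on with
  | zero => exact ⟨0, by ring⟩
  | succ t ih =>
    obtain ⟨m, hm⟩ := ih
    have h1 := pos_step hepn y hV n t
    have h2 := pos_lt_P hepn y n t
    rcases Nat.lt_or_ge (B.pos (y t) n + 1) (B.pathNum n 0) with h | h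
    · have h3 := (h1.1 h).2
      exact ⟨m, by rw [h3]; push_cast; rw [hm]; ring⟩
    · have h4 : B.pos (y t) n + 1 = B.pathNum n 0 := by omega
      have h3 := (h1.2 h4).1
      refine ⟨m - 1, ?_⟩
      rw [h3]
      have h5 : (B.pos (y t) n : ℤ) + 1 = B.pathNum n 0 := by exact_mod_cast h4
      push_cast
      linear_combination -h5 + hm
  | pred t ih =>
    obtain ⟨m, hm⟩ := ih
    have h1 := pos_step hepn y hV n (-(t : ℤ) - 1)
    have h2 := pos_lt_P hepn y n (-(t : ℤ) - 1)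
    rw [show -(t : ℤ) - 1 + 1 = -(t : ℤ) by ring] at h1
    rcases Nat.lt_or_ge (B.pos (y (-(t : ℤ) - 1)) n + 1) (B.pathNum n 0) with h | h
    · have h3 := (h1.1 h).2
      have h6 : (B.pos (y (-(t : ℤ))) n : ℤ) = B.pos (y (-(t : ℤ) - 1)) n + 1 := by
        exact_mod_cast h3
      exact ⟨m, by linear_combination -h6 + hm⟩
    · have h4 : B.pos (y (-(t : ℤ) - 1)) n + 1 = B.pathNum n 0 := by omega
      have h3 := (h1.2 h4).1
      rw [h3] at hm
      have h5 : (B.pos (y (-(t : ℤ) - 1)) n : ℤ) + 1 = B.pathNum n 0 := by exact_mod_cast h4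
      refine ⟨m + 1, ?_⟩
      push_cast at hm
      linear_combination h5 + hm

include hepn hV in
/-- There is `c` with `0 ≤ c < P` such that position `0` occurs at the times `c + jP`. -/
theorem exists_phase (n : ℕ) : ∃ c : ℤ, 0 ≤ c ∧ c < B.pathNum n 0 ∧
    ∀ j : ℤ, B.pos (y (c + j * (B.pathNum n 0 : ℤ))) n = 0 := by
  have hP : 0 < B.pathNum n 0 := B.pathNum_pos n 0 (B.size_pos n)
  have hPz : (0 : ℤ) < B.pathNum n 0 := by exact_mod_cast hP
  set P : ℤ := (B.pathNum n 0 : ℤ) with hPdef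
  refine ⟨(-(B.pos (y 0) n : ℤ)) % P, Int.emod_nonneg _ hPz.ne', Int.emod_lt_of_pos _ hPz, ?_⟩
  intro j
  obtain ⟨m, hm⟩ := pos_mod hepn y hV n ((-(B.pos (y 0) n : ℤ)) % P + j * P)
  have e := Int.mul_ediv_add_emod (-(B.pos (y 0) n : ℤ)) P
  have h1 : (B.pos (y ((-(B.pos (y 0) n : ℤ)) % P + j * P)) n : ℤ) =
      (j + m - (-(B.pos (y 0) n : ℤ)) / P) * P := by
    rw [← hPdef] at hm
    linear_combination hm + e
  have h2 := pos_lt_P hepn y n ((-(B.pos (y 0) n : ℤ)) % P + j * P)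
  have h3 : (B.pos (y ((-(B.pos (y 0) n : ℤ)) % P + j * P)) n : ℤ) < P := by
    rw [hPdef]; exact_mod_cast h2
  have h4 : (0 : ℤ) ≤ B.pos (y ((-(B.pos (y 0) n : ℤ)) % P + j * P)) n := by positivity
  set M := j + m - (-(B.pos (y 0) n : ℤ)) / P with hM
  rw [h1] at h3 h4
  have h5 : M = 0 := by
    rcases lt_trichotomy M 0 with h | h | h
    · have : M * P ≤ (-1) * P := mul_le_mul_of_nonneg_right (by omega) hPz.le
      omega
    · exact h
    · have : 1 * P ≤ M * P := mul_le_mul_of_nonneg_right (by omega) hPz.le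
      omega
  rw [h5, zero_mul] at h1
  exact_mod_cast h1

include hepn hV in
theorem pos_run (n : ℕ) (t : ℤ) (h0 : B.pos (y t) n = 0) (i : ℕ) (hi : i < B.pathNum n 0) :
    B.vert (y (t + i)) n = B.vert (y t) n ∧ B.pos (y (t + i)) n = i := by
  induction i with
  | zero => simpa using h0
  | succ i ih =>
    have h1 := ih (by omega)
    have h2 := (pos_step hepn y hV n (t + i)).1 (by omega)
    rw [show t + ((i + 1 : ℕ) : ℤ) = t + i + 1 by push_cast; ring]
    exact ⟨h2.1.trans h1.1, by omega⟩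

include hepn in
theorem P_succ (n v : ℕ) (hv : v < B.size (n + 1)) :
    B.pathNum (n + 1) 0 = (B.edge n v).card * B.pathNum n 0 := by
  rw [← pathNum_eq hepn (n + 1) v hv, OrdBratteli.pathNum, Finset.sum_congr rfl
    (fun k hk => pathNum_eq hepn n _ (B.src_lt n v k hv hk)), Finset.sum_const, smul_eq_mul]

include hepn in
theorem P_mono (n : ℕ) : B.pathNum n 0 ≤ B.pathNum (n + 1) 0 := by
  rw [P_succ hepn n 0 (B.size_pos _)]
  have h1 : 0 < (B.edge n 0).card := Finset.card_pos.mpr (B.edge_nonempty n 0 (B.size_pos _))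
  exact Nat.le_mul_of_pos_left _ h1

include hepn hV in
/-- If the heights are bounded, some two points of the orbit coincide. -/
theorem bounded_imp (hprop : B.IsProper) (N : ℕ) (hN : ∀ n, B.pathNum n 0 ≤ N) :
    ∃ s t : ℤ, s < t ∧ y s = y t := by
  have hmono : Monotone (fun n => B.pathNum n 0) := monotone_nat_of_le_succ (P_mono hepn)
  -- eventually constant
  obtain ⟨n1, hn1⟩ : ∃ n1, ∀ n, n1 ≤ n → B.pathNum n 0 = B.pathNum n1 0 := by
    by_contra hcon
    push Not at hcon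
    have hgrow : ∀ m : ℕ, ∃ n, m ≤ B.pathNum n 0 := by
      intro m
      induction m with
      | zero => exact ⟨0, Nat.zero_le _⟩
      | succ m ih =>
        obtain ⟨n, hn⟩ := ih
        obtain ⟨n', hn', hne⟩ := hcon n
        have := hmono hn'
        simp only at this
        exact ⟨n', by omega⟩
    obtain ⟨n, hn⟩ := hgrow (N + 1)
    have := hN n
    omega
  have hP : 0 < B.pathNum n1 0 := B.pathNum_pos n1 0 (B.size_pos n1)
  -- beyond n1 every edge is maximal
  have hmaxedge : ∀ n, n1 ≤ n → ∀ x : B.Path, B.IsMax n (x.1 n) := by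
    intro n hn x k hk
    have h1 := P_succ hepn n (x.1 n).1 (x.2.1 n).1
    rw [hn1 n hn, hn1 (n + 1) (by omega)] at h1
    have h2 : (B.edge n (x.1 n).1).card = 1 := by
      have h3 : 1 * B.pathNum n1 0 = (B.edge n (x.1 n).1).card * B.pathNum n1 0 := by
        rw [one_mul]; exact h1
      exact (Nat.eq_of_mul_eq_mul_right hP h3).symm
    obtain ⟨a, ha⟩ := Finset.card_eq_one.mp h2
    have h4 := (x.2.1 n).2
    rw [ha, Finset.mem_singleton] at hk h4
    omega
  obtain ⟨c, _, _, hc⟩ := exists_phase hepn y hV n1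
  have hmax : ∀ j : ℤ, ∀ n, B.IsMax n
      ((y (c + j * (B.pathNum n1 0 : ℤ) + ((B.pathNum n1 0 - 1 : ℕ) : ℤ))).1 n) := by
    intro j n
    have h1 := pos_run hepn y hV n1 _ (hc j) (B.pathNum n1 0 - 1) (by omega)
    have h2 := ((pos_step hepn y hV n1
      (c + j * (B.pathNum n1 0 : ℤ) + ((B.pathNum n1 0 - 1 : ℕ) : ℤ))).2 (by omega)).2
    rcases Nat.lt_or_ge n n1 with h | h
    · exact h2 n h
    · exact hmaxedge n h _
  have hPz : (0 : ℤ) < B.pathNum n1 0 := by exact_mod_cast hP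
  refine ⟨c + 0 * (B.pathNum n1 0 : ℤ) + ((B.pathNum n1 0 - 1 : ℕ) : ℤ),
    c + 1 * (B.pathNum n1 0 : ℤ) + ((B.pathNum n1 0 - 1 : ℕ) : ℤ), by linarith, ?_⟩
  exact hprop.1.unique (hmax 0) (hmax 1)

end

/-- The orbit points `S^t x0` are pairwise distinct. -/
theorem xt_injective (s t : ℤ) (hst : s < t) : xt s ≠ xt t := by
  intro h
  apply x0_not_periodic
  obtain ⟨p, hp⟩ := Int.eq_ofNat_of_zero_le (by omega : 0 ≤ t - s)
  refine ⟨p, by omega, fun n => ?_⟩
  have h1 := congrArg (fun z : XX => (z : ℤ → Bool) (n - s)) h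
  change x0 (n - s + s) = x0 (n - s + t) at h1
  rw [show n - s + s = n by ring, show n - s + t = n + p by rw [← hp]; ring] at h1
  exact h1.symm

/-- A continuous function on the subshift with discrete values takes the same value at `x0` and at
`S^(2^E) x0` for some `E`. -/
theorem exists_return {α : Type*} [TopologicalSpace α] [DiscreteTopology α] (f : XX → α)
    (hf : Continuous f) : ∃ E : ℕ, f (xt (2 ^ E)) = f (xt 0) := by
  have h1 : IsOpen (f ⁻¹' {f (xt 0)}) := (isOpen_discrete _).preimage hf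
  obtain ⟨V, hV, hVe⟩ := isOpen_induced_iff.mp h1
  have h2 : (xt 0 : ℤ → Bool) ∈ V := by
    have : xt 0 ∈ Subtype.val ⁻¹' V := by rw [hVe]; rfl
    exact this
  obtain ⟨I, u, hu, hIV⟩ := isOpen_pi_iff.mp hV _ h2
  obtain ⟨E, hE⟩ := x0_toeplitz_window (I.sup Int.natAbs)
  refine ⟨E, ?_⟩
  have h3 : (xt (2 ^ E) : ℤ → Bool) ∈ V := by
    apply hIV
    intro i hi
    have h4 : i.natAbs ≤ I.sup Int.natAbs := Finset.le_sup (f := Int.natAbs) hi
    have h5 := hE 1 i (by
      rw [← Int.natCast_natAbs]; exact_mod_cast h4)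
    have h6 : (xt (2 ^ E) : ℤ → Bool) i = (xt 0 : ℤ → Bool) i := by
      change x0 (i + 2 ^ E) = x0 (i + 0)
      rw [show i + (2 : ℤ) ^ E = 1 * 2 ^ E + i by ring, h5, add_zero]
    rw [h6]
    exact (hu i hi).2
  have h7 : xt (2 ^ E) ∈ f ⁻¹' {f (xt 0)} := by rw [← hVe]; exact h3
  exact h7

theorem not_strong (k : ℕ) : ¬ IsStrongToeplitz XX k := by
  rintro ⟨B, _, hprop, hepn, hsize, φ, hφ⟩
  set y : ℤ → B.Path := fun t => φ (xt t) with hy
  have hV : ∀ t, B.VershikRel (y t) (y (t + 1)) := fun t => hφ (xt t) (xt (t + 1)) (xt_succ t)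
  -- depth of the zero coordinate
  obtain ⟨n0, hn0⟩ := B.exists_depth (fun x : B.Path => ((φ.symm x : XX) : ℤ → Bool) 0)
    ((continuous_apply 0).comp (continuous_subtype_val.comp φ.symm.continuous))
  -- heights are unbounded
  have hunb : ∀ N, ∃ n, N < B.pathNum n 0 := by
    intro N
    by_contra hcon
    push Not at hcon
    obtain ⟨s, t, hst, he⟩ := bounded_imp hepn y hV hprop N hcon
    exact xt_injective s t hst (φ.injective he)
  have hmono : Monotone (fun n => B.pathNum n 0) := monotone_nat_of_le_succ (P_mono hepn)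
  obtain ⟨e0, he0⟩ := many_words (k * k + 1)
  obtain ⟨n', hn'⟩ := hunb (2 ^ e0)
  set n := max n' (max n0 1) with hn
  have hbig : 2 ^ e0 < B.pathNum n 0 := lt_of_lt_of_le hn' (hmono (le_max_left _ _))
  have hnn0 : n0 ≤ n := (le_max_left n0 1).trans (le_max_right _ _)
  have hn1 : 1 ≤ n := (le_max_right n0 1).trans (le_max_right _ _)
  -- the height is a power of two
  obtain ⟨e, hP⟩ : ∃ e, B.pathNum n 0 = 2 ^ e := by
    obtain ⟨E, hE⟩ := exists_return (fun z : XX => B.pos (φ z) n)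
      ((B.continuous_pos n).comp φ.continuous)
    obtain ⟨m, hm⟩ := pos_mod hepn y hV n (2 ^ E)
    have h1 : (B.pos (y (2 ^ E)) n : ℤ) = B.pos (y 0) n := by
      exact_mod_cast hE
    have h2 : (B.pathNum n 0 : ℤ) ∣ 2 ^ E := ⟨-m, by linear_combination h1 - hm⟩
    have h3 : B.pathNum n 0 ∣ 2 ^ E := by exact_mod_cast h2
    obtain ⟨e, _, he⟩ := (Nat.dvd_prime_pow Nat.prime_two).mp h3
    exact ⟨e, he⟩
  have he : e0 ≤ e := by
    rw [hP] at hbig
    exact ((Nat.pow_lt_pow_iff_right (by norm_num)).mp hbig).le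
  obtain ⟨J, hJ⟩ := he0 e he
  obtain ⟨c, hc0, hc1, hc⟩ := exists_phase hepn y hV n
  have hPz : (B.pathNum n 0 : ℤ) = 2 ^ e := by rw [hP]; push_cast; ring
  rw [hPz] at hc1 hc
  -- equal vertices give equal words
  have hword : ∀ s t : ℤ, B.pos (y s) n = 0 → B.pos (y t) n = 0 →
      B.vert (y s) n = B.vert (y t) n → ∀ i : ℤ, 0 ≤ i → i < 2 ^ e → x0 (s + i) = x0 (t + i) := by
    intro s t hs ht hst i hi0 hi1
    obtain ⟨i, rfl⟩ := Int.eq_ofNat_of_zero_le hi0
    have hi2 : i < B.pathNum n 0 := by rw [← hPz] at hi1; exact_mod_cast hi1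
    have h1 := pos_run hepn y hV n s hs i hi2
    have h2 := pos_run hepn y hV n t ht i hi2
    have h3 := B.eq_of_pos_eq (y (s + i)) (y (t + i)) n (by rw [h1.1, h2.1, hst])
      (by rw [h1.2, h2.2])
    have h4 := hn0 (y (s + i)) (y (t + i)) (fun m hm => h3 m (by omega))
    simp only [hy, Homeomorph.symm_apply_apply] at h4
    change x0 (0 + (s + i)) = x0 (0 + (t + i)) at h4
    rw [zero_add, zero_add] at h4
    exact h4
  -- pigeonhole
  have hvk : ∀ t, B.vert (y t) n < k := by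
    intro t
    have h1 := B.vert_lt (y t) n
    obtain ⟨n'', hn''⟩ := Nat.exists_eq_add_of_le hn1
    rw [hn'', add_comm 1 n'', hsize] at h1
    rw [hn'', add_comm 1 n'']
    exact h1
  obtain ⟨u, hu, w, hw, huw, heq⟩ := Finset.exists_ne_map_eq_of_card_lt_of_maps_to
    (s := Finset.range (k * k + 1)) (t := Finset.range k ×ˢ Finset.range k)
    (f := fun u => (B.vert (y (c + (J u - 1) * 2 ^ e)) n, B.vert (y (c + J u * 2 ^ e)) n))
    (by simp) (by
      intro u _
      simp only [Finset.coe_product, Finset.coe_range, Set.mem_prod, Set.mem_Iio]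
      exact ⟨hvk _, hvk _⟩)
  rw [Finset.mem_range] at hu hw
  have heq1 := congrArg Prod.fst heq
  have heq2 := congrArg Prod.snd heq
  simp only at heq1 heq2
  obtain ⟨r, hr0, hr1, hr2⟩ := hJ u hu w hw huw
  apply hr2
  rcases lt_or_ge r c with h | h
  · have h1 := hword _ _ (hc (J u - 1)) (hc (J w - 1)) heq1 (2 ^ e + r - c) (by omega) (by omega)
    rw [show c + (J u - 1) * 2 ^ e + (2 ^ e + r - c) = J u * 2 ^ e + r by ring,
      show c + (J w - 1) * 2 ^ e + (2 ^ e + r - c) = J w * 2 ^ e + r by ring] at h1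
    exact h1
  · have h1 := hword _ _ (hc (J u)) (hc (J w)) heq2 (r - c) (by omega) (by omega)
    rw [show c + J u * 2 ^ e + (r - c) = J u * 2 ^ e + r by ring,
      show c + J w * 2 ^ e + (r - c) = J w * 2 ^ e + r by ring] at h1
    exact h1

theorem not_rankAtMost_one (K : ℕ) (hK : K < 2) : ¬ RankAtMost XX K := by
  rintro ⟨B, h1, h2, h3, h4⟩
  have hs : ∀ n, B.size (n + 1) = 1 := by
    intro n
    have := h3 n
    have := B.size_pos (n + 1)
    omega
  refine not_strong 1 ⟨B, h1, h2, ?_, hs, h4⟩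
  intro n u v hu hv
  rw [hs n] at hu hv
  have e1 : u = 0 := by omega
  have e2 : v = 0 := by omega
  rw [e1, e2]

end Pool.Agent.H94.Toep
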