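import Pool.Agent.H94.Toep.NotStrong

/-!
# A Bratteli diagram with two vertices per level for the subshift of the example
-/

namespace Pool.Agent.H94.Toep

open Set Filter Topology

/-- length, in units of `g n`, of the word of type `v` of level `n+1` -/
noncomputable def wlen (n v : ℕ) : ℕ := if v = 0 then al (n + 1) * qq n else qq n

/-- base position, in units of `g n`, of the word of type `v` of level `n+1` in `x0` -/
noncomputable def base (n v : ℕ) : ℤ := if v = 0 then 0 else -(qq n : ℤ)

/-- a word of level `n` starts at block `j` -/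
def IsCut (n : ℕ) (j : ℤ) : Prop := idx n j = 0 ∨ idx n j = al n

noncomputable instance (n : ℕ) (j : ℤ) : Decidable (IsCut n j) := by unfold IsCut; infer_instance

/-- edges of the diagram -/
noncomputable def bEdge : ℕ → ℕ → Finset ℕ
  | 0, _ => {0}
  | n + 1, v => (Finset.range (wlen n v)).filter (fun k => IsCut n (base n v + k))

/-- sources of the diagram -/
noncomputable def bSrc : ℕ → ℕ → ℕ → ℕ
  | 0, _, _ => 0
  | n + 1, v, k => if idx n (base n v + k) = 0 then 0 else 1

/-- sizes of the diagram -/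
def bSize : ℕ → ℕ
  | 0 => 1
  | _ + 1 => 2

theorem wlen_ge (n v : ℕ) : qq n ≤ wlen n v := by
  unfold wlen
  split_ifs
  · exact Nat.le_mul_of_pos_left _ (al_pos (n + 1))
  · exact le_rfl

theorem base_eq_mul (n v : ℕ) : base n v = (if v = 0 then 0 else -1) * (qq n : ℤ) := by
  unfold base; split_ifs <;> ring

theorem idx_base (n v : ℕ) : idx n (base n v) = 0 := by
  rw [base_eq_mul, idx_mul]

theorem zero_mem_bEdge (n v : ℕ) : 0 ∈ bEdge (n + 1) v := by
  have := wlen_ge n v
  have := qq_ge n
  simp only [bEdge, Finset.mem_filter, Finset.mem_range, Nat.cast_zero, add_zero]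
  exact ⟨by omega, Or.inl (idx_base n v)⟩

theorem idx_base_qsub (n v : ℕ) : idx n (base n v + ((qq n - 1 : ℕ) : ℤ)) = al n := by
  have := qq_ge n
  rw [base_eq_mul, show (if v = 0 then (0 : ℤ) else -1) * (qq n : ℤ) + ((qq n - 1 : ℕ) : ℤ) =
    ((if v = 0 then (0 : ℤ) else -1) + 1) * (qq n : ℤ) - 1 by
      rw [Nat.cast_sub (by omega)]; push_cast; ring]
  exact idx_mul_sub_one n _

theorem qsub_mem_bEdge (n v : ℕ) : qq n - 1 ∈ bEdge (n + 1) v := by
  have := wlen_ge n v
  have := qq_ge n
  simp only [bEdge, Finset.mem_filter, Finset.mem_range]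
  exact ⟨by omega, Or.inr (idx_base_qsub n v)⟩

theorem idx_base_last (n v : ℕ) : idx n (base n v + ((wlen n v - 1 : ℕ) : ℤ)) = al n := by
  have h1 := wlen_ge n v
  have h2 := qq_ge n
  rw [Nat.cast_sub (by omega)]
  have : base n v + ((wlen n v : ℤ) - ((1 : ℕ) : ℤ)) =
      (if v = 0 then (al (n + 1) : ℤ) else 0) * (qq n : ℤ) - 1 := by
    unfold base wlen
    split_ifs
    · push_cast; ring
    · push_cast; ring
  rw [this]
  exact idx_mul_sub_one n _

theorem last_mem_bEdge (n v : ℕ) : wlen n v - 1 ∈ bEdge (n + 1) v := by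
  have := wlen_ge n v
  have := qq_ge n
  simp only [bEdge, Finset.mem_filter, Finset.mem_range]
  exact ⟨by omega, Or.inr (idx_base_last n v)⟩

theorem exists_edge (n u v : ℕ) (hu : u < bSize n) :
    ∃ k ∈ bEdge n v, bSrc n v k = u := by
  cases n with
  | zero =>
    refine ⟨0, by simp [bEdge], ?_⟩
    change u < 1 at hu
    simp only [bSrc]; omega
  | succ n =>
    change u < 2 at hu
    rcases Nat.lt_or_ge u 1 with h | h
    · refine ⟨0, zero_mem_bEdge n v, ?_⟩
      simp only [bSrc, Nat.cast_zero, add_zero, idx_base, if_pos]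
      omega
    · refine ⟨qq n - 1, qsub_mem_bEdge n v, ?_⟩
      have := al_pos n
      simp only [bSrc, idx_base_qsub]
      rw [if_neg (by omega)]
      omega

/-- The diagram. -/
noncomputable def BB : OrdBratteli where
  size := bSize
  edge := bEdge
  src := bSrc
  size_zero := rfl
  size_pos := by
    intro n
    cases n with
    | zero => exact Nat.zero_lt_one
    | succ n => exact Nat.zero_lt_two
  edge_nonempty := by
    intro n v _
    cases n with
    | zero => exact ⟨0, by simp [bEdge]⟩
    | succ n => exact ⟨0, zero_mem_bEdge n v⟩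
  src_lt := by
    intro n v k _ _
    cases n with
    | zero => exact Nat.zero_lt_one
    | succ n =>
      change (if idx n (base n v + k) = 0 then 0 else 1) < 2
      split_ifs <;> norm_num
  src_surj := by
    intro n u hu
    obtain ⟨k, hk, hk2⟩ := exists_edge n u 0 hu
    exact ⟨0, k, Nat.zero_lt_two, hk, hk2⟩

theorem BB_simple : BB.IsSimple := by
  intro n
  refine ⟨n + 1, Nat.lt_succ_self n, fun u v hu hv => ?_⟩
  obtain ⟨k, hk, hk2⟩ := exists_edge n u v hu
  exact OrdBratteli.Conn.step n u v k OrdBratteli.Conn.refl hv hk hk2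

/-! ### Starts of words -/

/-- offset of block `j` in its word of level `n` -/
noncomputable def offs (n : ℕ) (j : ℤ) : ℕ := if idx n j < al n then idx n j else 0

/-- start of the word of level `n` containing block `j` -/
noncomputable def st (n : ℕ) (j : ℤ) : ℤ := j - offs n j

/-- type of the word of level `n` containing block `j` -/
noncomputable def typ (n : ℕ) (j : ℤ) : ℕ := if idx n j < al n then 0 else 1

/-- length in blocks of the word of level `n` of type `v` -/
def len (n v : ℕ) : ℕ := if v = 0 then al n else 1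

theorem wlen_eq (n v : ℕ) : wlen n v = len (n + 1) v * qq n := by
  unfold wlen len; split_ifs <;> ring

theorem st_le (n : ℕ) (j : ℤ) : st n j ≤ j := by unfold st; omega

theorem lt_st_add (n : ℕ) (j : ℤ) : j < st n j + len n (typ n j) := by
  unfold st offs typ len
  split_ifs with h1 h2
  · omega
  · omega
  · simp_all
  · simp

theorem idx_st (n : ℕ) (j : ℤ) : idx n (st n j) = if typ n j = 0 then 0 else al n := by
  unfold st offs typ
  by_cases h1 : idx n j < al n
  · rw [if_pos h1, if_pos h1, if_pos rfl, idx_backward n j (idx n j) le_rfl h1]; omega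
  · rw [if_neg h1, if_neg h1, if_neg one_ne_zero]
    have := idx_le n j
    simp only [Nat.cast_zero, sub_zero]
    omega

theorem isCut_st (n : ℕ) (j : ℤ) : IsCut n (st n j) := by
  have h := idx_st n j
  unfold IsCut
  split_ifs at h
  · left; exact h
  · right; exact h

theorem cut_le_st (n : ℕ) (c j : ℤ) (hc : IsCut n c) (hcj : c ≤ j) : c ≤ st n j := by
  unfold st offs
  split_ifs with h
  · by_contra hcon
    push Not at hcon
    obtain ⟨m, hm⟩ := Int.eq_ofNat_of_zero_le (by omega : 0 ≤ j - c)
    have h1 := idx_backward n j m (by omega) h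
    rw [show j - (m : ℤ) = c by omega] at h1
    rcases hc with h2 | h2 <;> omega
  · simpa using hcj

/-- a word starting at `s` of given type: the blocks in it belong to it -/
theorem st_of_start (n v : ℕ) (hv : v < 2) (s : ℤ) (hs : idx n s = if v = 0 then 0 else al n)
    (m : ℕ) (hm : m < len n v) : st n (s + m) = s ∧ typ n (s + m) = v := by
  have ha := al_pos n
  rcases Nat.lt_or_ge v 1 with h | h
  · have hv0 : v = 0 := by omega
    subst hv0
    simp only [if_true, len] at hs hm
    have h1 := idx_forward n s m (by omega)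
    unfold st offs typ
    rw [h1, hs, if_pos (by omega), if_pos (by omega)]
    constructor
    · push_cast; ring
    · rfl
  · have hv1 : v = 1 := by omega
    subst hv1
    simp only [one_ne_zero, if_false, len] at hs hm
    have hm0 : m = 0 := by omega
    subst hm0
    unfold st offs typ
    simp only [Nat.cast_zero, add_zero]
    rw [hs, if_neg (by omega), if_neg (by omega)]
    simp

/-- copy of the content of a word of level `n+1` -/
theorem word_copy (n v : ℕ) (hv : v < 2) (s : ℤ)
    (hs : idx (n + 1) s = if v = 0 then 0 else al (n + 1)) (k : ℕ) (hk : k < wlen n v) :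
    idx n (s * (qq n : ℤ) + k) = idx n (base n v + k) := by
  have hq := qq_ge n
  have ha := al_pos (n + 1)
  have hdm := Nat.div_add_mod k (qq n)
  have hml := Nat.mod_lt k (by omega : 0 < qq n)
  rcases Nat.lt_or_ge v 1 with h | h
  · have hv0 : v = 0 := by omega
    subst hv0
    simp only [if_true, wlen, base] at hs hk ⊢
    have hkd : k / qq n < al (n + 1) := Nat.div_lt_of_lt_mul (by rw [mul_comm]; exact hk)
    have hkz : (k : ℤ) = (qq n : ℤ) * ((k / qq n : ℕ) : ℤ) + ((k % qq n : ℕ) : ℤ) := by
      exact_mod_cast hdm.symm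
    have h1 := idx_forward (n + 1) s (k / qq n) (by omega)
    have h2 := idx_forward (n + 1) 0 (k / qq n) (by rw [idx_zero]; omega)
    have h3 := idx_block n (s + ((k / qq n : ℕ) : ℤ)) (k % qq n) hml
    have h4 := idx_block n (0 + ((k / qq n : ℕ) : ℤ)) (k % qq n) hml
    rw [show s * (qq n : ℤ) + (k : ℤ) =
      (s + ((k / qq n : ℕ) : ℤ)) * (qq n : ℤ) + ((k % qq n : ℕ) : ℤ) by rw [hkz]; push_cast; ring,
      h3, h1, hs]
    rw [show (0 : ℤ) + (k : ℤ) =
      (0 + ((k / qq n : ℕ) : ℤ)) * (qq n : ℤ) + ((k % qq n : ℕ) : ℤ) by rw [hkz]; push_cast; ring,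
      h4, h2, idx_zero]
  · have hv1 : v = 1 := by omega
    subst hv1
    simp only [one_ne_zero, if_false, wlen, base] at hs hk ⊢
    have h3 := idx_block n s k hk
    have h4 := idx_block n (-1) k hk
    rw [h3, hs, show -(qq n : ℤ) + (k : ℤ) = (-1) * (qq n : ℤ) + k by ring, h4, idx_neg_one]

/-! ### The path of an integer -/

/-- start of the word of level `n` containing `t`, in units of `g n` -/
noncomputable def ss (n : ℕ) (t : ℤ) : ℤ := st n (t / (gg n : ℤ))

/-- type of the word of level `n` containing `t` -/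
noncomputable def tt (n : ℕ) (t : ℤ) : ℕ := typ n (t / (gg n : ℤ))

theorem typ_lt (n : ℕ) (j : ℤ) : typ n j < 2 := by unfold typ; split_ifs <;> norm_num

theorem ediv_gg_succ (n : ℕ) (t : ℤ) : t / (gg (n + 1) : ℤ) = t / (gg n : ℤ) / (qq n : ℤ) := by
  rw [gg_succ]; push_cast
  rw [Int.ediv_ediv_of_nonneg (by positivity)]

/-- relation between the starts at consecutive levels -/
theorem ss_ediv (n : ℕ) (t : ℤ) : ss n t / (qq n : ℤ) = t / (gg (n + 1) : ℤ) := by
  have hq := qq_ge n
  rw [ediv_gg_succ]
  unfold ss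
  set j := t / (gg n : ℤ) with hj
  have m0 := Int.emod_nonneg j (by omega : (qq n : ℤ) ≠ 0)
  have m1 := Int.emod_lt_of_pos j (by omega : (0 : ℤ) < qq n)
  have e := Int.mul_ediv_add_emod j (qq n : ℤ)
  have h1 : IsCut n (j / (qq n : ℤ) * (qq n : ℤ)) := Or.inl (idx_mul n _)
  have h2 : j / (qq n : ℤ) * (qq n : ℤ) ≤ j := by linarith
  have h3 := cut_le_st n _ j h1 h2
  have h4 := st_le n j
  have hu := (Int.ediv_emod_unique (a := st n j) (b := (qq n : ℤ))
    (r := st n j - j / (qq n : ℤ) * (qq n : ℤ)) (q := j / (qq n : ℤ))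
    (by omega)).2 ⟨by ring, by linarith, by linarith⟩
  exact hu.1

theorem ss_succ (n : ℕ) (t : ℤ) : ss (n + 1) t = st (n + 1) (ss n t / (qq n : ℤ)) := by
  rw [ss_ediv]; rfl

theorem tt_succ (n : ℕ) (t : ℤ) : tt (n + 1) t = typ (n + 1) (ss n t / (qq n : ℤ)) := by
  rw [ss_ediv]; rfl

theorem tt_eq (n : ℕ) (t : ℤ) : tt n t = typ n (ss n t) := by
  have h1 := st_of_start n (tt n t) (typ_lt n _) (ss n t) (idx_st n _) 0 (by
    unfold len; split_ifs
    · exact al_pos n
    · exact Nat.zero_lt_one)
  simpa using h1.2.symm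

theorem ss_zero_level (t : ℤ) : ss 0 t = t := by
  unfold ss st offs
  rw [gg_zero]
  simp only [Nat.cast_one, Int.ediv_one]
  have : al 0 = 1 := rfl
  split_ifs with h
  · have : idx 0 t = 0 := by omega
    rw [this]; simp
  · simp

/-- label at level `n+1` -/
theorem label_nonneg (n : ℕ) (t : ℤ) : 0 ≤ ss n t - ss (n + 1) t * (qq n : ℤ) := by
  have hq := qq_ge n
  have h1 := st_le (n + 1) (t / (gg (n + 1) : ℤ))
  have h2 : ss (n + 1) t ≤ ss n t / (qq n : ℤ) := by rw [ss_ediv]; exact h1
  have h3 := Int.mul_ediv_add_emod (ss n t) (qq n : ℤ)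
  have m0 := Int.emod_nonneg (ss n t) (by omega : (qq n : ℤ) ≠ 0)
  have h4 : ss (n + 1) t * (qq n : ℤ) ≤ ss n t / (qq n : ℤ) * (qq n : ℤ) :=
    mul_le_mul_of_nonneg_right h2 (by omega)
  linarith

theorem label_lt (n : ℕ) (t : ℤ) :
    ss n t - ss (n + 1) t * (qq n : ℤ) < wlen n (tt (n + 1) t) := by
  have hq := qq_ge n
  have h1 := lt_st_add (n + 1) (t / (gg (n + 1) : ℤ))
  rw [← ss_ediv] at h1
  change ss n t / (qq n : ℤ) < st (n + 1) (ss n t / (qq n : ℤ)) +
    (len (n + 1) (typ (n + 1) (ss n t / (qq n : ℤ))) : ℤ) at h1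
  rw [← ss_succ, ← tt_succ] at h1
  have h3 := Int.mul_ediv_add_emod (ss n t) (qq n : ℤ)
  have m1 := Int.emod_lt_of_pos (ss n t) (by omega : (0 : ℤ) < qq n)
  rw [wlen_eq]
  push_cast
  have h4 : (ss n t / (qq n : ℤ) + 1) * (qq n : ℤ) ≤
      (ss (n + 1) t + (len (n + 1) (tt (n + 1) t) : ℤ)) * (qq n : ℤ) :=
    mul_le_mul_of_nonneg_right (by omega) (by omega)
  linarith

/-- the edge sequence of the integer `t` -/
noncomputable def pseq (t : ℤ) : ℕ → ℕ × ℕ
  | 0 => (tt 0 t, 0)
  | n + 1 => (tt (n + 1) t, (ss n t - ss (n + 1) t * (qq n : ℤ)).toNat)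

theorem pseq_label (n : ℕ) (t : ℤ) :
    (((pseq t (n + 1)).2 : ℕ) : ℤ) = ss n t - ss (n + 1) t * (qq n : ℤ) :=
  Int.toNat_of_nonneg (label_nonneg n t)

theorem pseq_idx (n : ℕ) (t : ℤ) :
    idx n (base n (pseq t (n + 1)).1 + ((pseq t (n + 1)).2 : ℕ)) = idx n (ss n t) := by
  have h1 := word_copy n (tt (n + 1) t) (typ_lt _ _) (ss (n + 1) t) (idx_st _ _)
    (pseq t (n + 1)).2 (by
      have := label_lt n t
      have h2 := pseq_label n t
      omega)
  change idx n (base n (tt (n + 1) t) + ((pseq t (n + 1)).2 : ℕ)) = _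
  rw [← h1, pseq_label]
  congr 1; ring

theorem pseq_isPath (t : ℤ) : BB.IsPath (pseq t) := by
  constructor
  · intro n
    cases n with
    | zero => exact ⟨typ_lt _ _, by simp [BB, bEdge, pseq]⟩
    | succ n =>
      refine ⟨typ_lt _ _, ?_⟩
      change (pseq t (n + 1)).2 ∈ (Finset.range (wlen n (tt (n + 1) t))).filter
        (fun k : ℕ => IsCut n (base n (pseq t (n + 1)).1 + (k : ℤ)))
      rw [Finset.mem_filter, Finset.mem_range]
      refine ⟨?_, ?_⟩
      · have := label_lt n t
        have h2 := pseq_label n t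
        omega
      · have h3 := isCut_st n (t / (gg n : ℤ))
        unfold IsCut at h3 ⊢
        rw [pseq_idx]
        exact h3
  · intro n
    change (if idx n (base n (pseq t (n + 1)).1 + ((pseq t (n + 1)).2 : ℕ)) = 0 then 0 else 1) =
      (pseq t n).1
    rw [pseq_idx]
    have h1 : (pseq t n).1 = tt n t := by cases n <;> rfl
    have h2 := idx_st n (t / (gg n : ℤ))
    have h3 := al_pos n
    have h4 := typ_lt n (t / (gg n : ℤ))
    change idx n (ss n t) = if tt n t = 0 then 0 else al n at h2
    change tt n t < 2 at h4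
    rw [h1, h2]
    split_ifs <;> omega

/-- the path of the integer `t` -/
noncomputable def pth (t : ℤ) : BB.Path := ⟨pseq t, pseq_isPath t⟩

end Pool.Agent.H94.Toep
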