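import Pool.Agent.H94.Toep.RankTwo

/-!
# Vershik successor along the orbit; proper order; windows
-/

namespace Pool.Agent.H94.Toep

open Set Filter Topology

theorem label_zero_level (x : BB.Path) : (x.1 0).2 = 0 := by
  have h := (x.2.1 0).2
  change (x.1 0).2 ∈ ({0} : Finset ℕ) at h
  simpa using h

theorem isMax_zero_level (x : BB.Path) : BB.IsMax 0 (x.1 0) := by
  intro k hk
  change k ∈ ({0} : Finset ℕ) at hk
  rw [Finset.mem_singleton] at hk
  omega

theorem isMin_zero_level (x : BB.Path) : BB.IsMin 0 (x.1 0) := by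
  intro k _
  rw [label_zero_level]; exact Nat.zero_le _

theorem mem_bEdge_iff (n v k : ℕ) :
    k ∈ bEdge (n + 1) v ↔ k < wlen n v ∧ IsCut n (base n v + k) := by
  simp only [bEdge, Finset.mem_filter, Finset.mem_range]

theorem neg_one_ediv (n : ℕ) : (-1 : ℤ) / (gg n : ℤ) = -1 := by
  have hg := gg_pos n
  have hu := (Int.ediv_emod_unique (a := -1) (b := (gg n : ℤ)) (r := (gg n : ℤ) - 1) (q := -1)
      (by omega)).2 ⟨by ring, by omega, by omega⟩
  exact hu.1

theorem ss_neg_one (n : ℕ) : ss n (-1) = -1 := by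
  unfold ss st offs
  rw [neg_one_ediv, idx_neg_one, if_neg (lt_irrefl _)]; simp

theorem tt_neg_one (n : ℕ) : tt n (-1) = 1 := by
  unfold tt typ
  rw [neg_one_ediv, idx_neg_one, if_neg (lt_irrefl _)]

theorem ss_zero (n : ℕ) : ss n 0 = 0 := by
  unfold ss st offs
  simp [idx_zero, al_pos]

theorem isMax_neg_one (n : ℕ) : BB.IsMax n ((pth (-1)).1 n) := by
  cases n with
  | zero => exact isMax_zero_level _
  | succ n =>
    intro k hk
    have h1 : k ∈ bEdge (n + 1) (tt (n + 1) (-1)) := hk
    rw [mem_bEdge_iff, tt_neg_one] at h1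
    have h2 := pseq_label n (-1)
    rw [ss_neg_one, ss_neg_one] at h2
    have h3 : wlen n 1 = qq n := by simp [wlen]
    have h4 := qq_ge n
    change k ≤ (pseq (-1) (n + 1)).2
    omega

theorem isMin_zero (n : ℕ) : BB.IsMin n ((pth 0).1 n) := by
  cases n with
  | zero => exact isMin_zero_level _
  | succ n =>
    intro k _
    have h2 := pseq_label n 0
    rw [ss_zero, ss_zero] at h2
    change (pseq 0 (n + 1)).2 ≤ k
    omega

theorem max_path_spec (x : BB.Path) (hx : ∀ n, BB.IsMax n (x.1 n)) (n : ℕ) :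
    (x.1 n).1 = 1 ∧ (x.1 (n + 1)).2 = wlen n (x.1 (n + 1)).1 - 1 := by
  have h1 : (x.1 (n + 1)).2 ∈ bEdge (n + 1) (x.1 (n + 1)).1 := (x.2.1 (n + 1)).2
  have h2 := hx (n + 1) _ (last_mem_bEdge n (x.1 (n + 1)).1)
  rw [mem_bEdge_iff] at h1
  have h3 : (x.1 (n + 1)).2 = wlen n (x.1 (n + 1)).1 - 1 := by omega
  refine ⟨?_, h3⟩
  have h4 : bSrc (n + 1) (x.1 (n + 1)).1 (x.1 (n + 1)).2 = (x.1 n).1 := x.2.2 n
  rw [← h4, h3]
  have := al_pos n
  simp only [bSrc, idx_base_last]
  rw [if_neg (by omega)]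

theorem min_path_spec (x : BB.Path) (hx : ∀ n, BB.IsMin n (x.1 n)) (n : ℕ) :
    (x.1 n).1 = 0 ∧ (x.1 (n + 1)).2 = 0 := by
  have h2 := hx (n + 1) _ (zero_mem_bEdge n (x.1 (n + 1)).1)
  have h3 : (x.1 (n + 1)).2 = 0 := by omega
  refine ⟨?_, h3⟩
  have h4 : bSrc (n + 1) (x.1 (n + 1)).1 (x.1 (n + 1)).2 = (x.1 n).1 := x.2.2 n
  rw [← h4, h3]
  simp only [bSrc, Nat.cast_zero, add_zero, idx_base, if_pos]

theorem BB_proper : BB.IsProper := by
  constructor
  · refine ⟨pth (-1), isMax_neg_one, fun y hy => ?_⟩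
    apply Subtype.ext
    funext n
    have h1 := max_path_spec _ isMax_neg_one
    have h2 := max_path_spec y hy
    refine Prod.ext ((h2 n).1.trans (h1 n).1.symm) ?_
    cases n with
    | zero => rw [label_zero_level, label_zero_level]
    | succ n => rw [(h1 n).2, (h2 n).2, (h1 (n + 1)).1, (h2 (n + 1)).1]
  · refine ⟨pth 0, isMin_zero, fun y hy => ?_⟩
    apply Subtype.ext
    funext n
    have h1 := min_path_spec _ isMin_zero
    have h2 := min_path_spec y hy
    refine Prod.ext ((h2 n).1.trans (h1 n).1.symm) ?_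
    cases n with
    | zero => rw [label_zero_level, label_zero_level]
    | succ n => rw [(h1 n).2, (h2 n).2]

/-! ### Vershik step -/

theorem ss_same_up (n : ℕ) (t t' : ℤ) (h : ss n t = ss n t') (m : ℕ) (hm : n ≤ m) :
    ss m t = ss m t' := by
  induction m, hm using Nat.le_induction with
  | base => exact h
  | succ m _ ih => rw [ss_succ, ss_succ, ih]

theorem tt_same (n : ℕ) (t t' : ℤ) (h : ss n t = ss n t') : tt n t = tt n t' := by
  rw [tt_eq, tt_eq, h]

theorem edge_same (n : ℕ) (t t' : ℤ) (h : ss n t = ss n t') (m : ℕ) (hm : n < m) :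
    pseq t m = pseq t' m := by
  cases m with
  | zero => omega
  | succ m =>
    have h1 := ss_same_up n t t' h m (by omega)
    have h2 := ss_same_up n t t' h (m + 1) (by omega)
    change (tt (m + 1) t, (ss m t - ss (m + 1) t * (qq m : ℤ)).toNat) =
      (tt (m + 1) t', (ss m t' - ss (m + 1) t' * (qq m : ℤ)).toNat)
    rw [h1, h2, tt_same (m + 1) t t' h2]

theorem not_same (m : ℕ) (t : ℤ) (h : ss m t ≠ ss m (t + 1)) :
    ∃ c : ℤ, t + 1 = c * (gg m : ℤ) ∧ t / (gg m : ℤ) = c - 1 ∧ (t + 1) / (gg m : ℤ) = c ∧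
      ss m (t + 1) = c := by
  have hg := gg_pos m
  have hgz : (0 : ℤ) < gg m := by exact_mod_cast hg
  set g : ℤ := (gg m : ℤ) with hgdef
  have m0 := Int.emod_nonneg t hgz.ne'
  have m1 := Int.emod_lt_of_pos t hgz
  have e := Int.mul_ediv_add_emod t g
  by_cases hr : t % g + 1 < g
  · exfalso
    have hu := (Int.ediv_emod_unique (a := t + 1) (b := g) (r := t % g + 1) (q := t / g)
      hgz).2 ⟨by linear_combination e, by omega, hr⟩
    apply h
    unfold ss
    rw [← hgdef, hu.1]
  · have hr' : t % g + 1 = g := by omega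
    have e2 : t + 1 = (t / g + 1) * g := by linear_combination -e + hr'
    have hu := (Int.ediv_emod_unique (a := t + 1) (b := g) (r := 0) (q := t / g + 1)
      hgz).2 ⟨by linear_combination -e2, le_rfl, hgz⟩
    refine ⟨t / g + 1, e2, by ring, hu.1, ?_⟩
    have h1 : ss m (t + 1) = st m (t / g + 1) := by unfold ss; rw [← hgdef, hu.1]
    have h2 : ss m t = st m (t / g) := rfl
    rw [h1]
    have h3 := st_le m (t / g + 1)
    by_contra hcon
    have h4 : st m (t / g + 1) ≤ t / g := by omega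
    have h5 := cut_le_st m _ _ (isCut_st m (t / g + 1)) h4
    have h6 := cut_le_st m _ (t / g + 1) (isCut_st m (t / g)) ((st_le m _).trans (by omega))
    apply h
    rw [h1, h2]
    omega

theorem st_of_cut (n : ℕ) (c : ℤ) (hc : IsCut n c) : st n c = c :=
  le_antisymm (st_le n c) (cut_le_st n c c hc le_rfl)

theorem next_cut (n : ℕ) (j c : ℤ) (hc : IsCut n c) (hjc : j < c) :
    st n j + len n (typ n j) ≤ c := by
  by_contra hcon
  push Not at hcon
  have h1 := st_le n j
  obtain ⟨m, hm⟩ := Int.eq_ofNat_of_zero_le (by omega : 0 ≤ c - st n j)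
  have h2 := st_of_start n (typ n j) (typ_lt n j) (st n j) (idx_st n j) m (by omega)
  rw [show st n j + (m : ℤ) = c by omega, st_of_cut n c hc] at h2
  omega

theorem exists_same (t : ℤ) (ht : t ≠ -1) : ∃ n, ss n t = ss n (t + 1) := by
  rcases lt_or_ge t 0 with h | h
  · refine ⟨t.natAbs, ?_⟩
    have hg := gg_gt t.natAbs
    have h1 : t / (gg t.natAbs : ℤ) = -1 := by
      have hu := (Int.ediv_emod_unique (a := t) (b := (gg t.natAbs : ℤ))
        (r := t + gg t.natAbs) (q := -1) (by omega)).2 ⟨by ring, by omega, by omega⟩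
      exact hu.1
    have h2 : (t + 1) / (gg t.natAbs : ℤ) = -1 := by
      have hu := (Int.ediv_emod_unique (a := t + 1) (b := (gg t.natAbs : ℤ))
        (r := t + 1 + gg t.natAbs) (q := -1) (by omega)).2 ⟨by ring, by omega, by omega⟩
      exact hu.1
    unfold ss
    rw [h1, h2]
  · refine ⟨t.natAbs + 1, ?_⟩
    have hg := gg_gt (t.natAbs + 1)
    have h1 : t / (gg (t.natAbs + 1) : ℤ) = 0 := Int.ediv_eq_zero_of_lt h (by omega)
    have h2 : (t + 1) / (gg (t.natAbs + 1) : ℤ) = 0 :=
      Int.ediv_eq_zero_of_lt (by omega) (by omega)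
    unfold ss
    rw [h1, h2]

/-- A label of an edge into the word containing `t` gives a cut. -/
theorem cut_of_label (m : ℕ) (t : ℤ) (k : ℕ) (hk : k ∈ bEdge (m + 1) (tt (m + 1) t)) :
    k < wlen m (tt (m + 1) t) ∧ IsCut m (ss (m + 1) t * (qq m : ℤ) + k) := by
  rw [mem_bEdge_iff] at hk
  refine ⟨hk.1, ?_⟩
  have h1 := word_copy m (tt (m + 1) t) (typ_lt _ _) (ss (m + 1) t) (idx_st _ _) k hk.1
  unfold IsCut
  rw [h1]
  exact hk.2

theorem vershik_step (t : ℤ) : BB.VershikRel (pth t) (pth (t + 1)) := by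
  by_cases ht : t = -1
  · subst ht
    left
    exact ⟨isMax_neg_one, by
      intro n
      rw [show (-1 : ℤ) + 1 = 0 by norm_num]
      exact isMin_zero n⟩
  right
  have hex := exists_same t ht
  classical
  obtain ⟨n, hn, hmin⟩ : ∃ n, ss n t = ss n (t + 1) ∧ ∀ m < n, ss m t ≠ ss m (t + 1) :=
    ⟨Nat.find hex, Nat.find_spec hex, fun m hm => Nat.find_min hex hm⟩
  cases n with
  | zero =>
    rw [ss_zero_level, ss_zero_level] at hn
    omega
  | succ n =>
    have hstr : ∀ m ≤ n, ∃ c : ℤ, t + 1 = c * (gg m : ℤ) ∧ t / (gg m : ℤ) = c - 1 ∧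
        (t + 1) / (gg m : ℤ) = c ∧ ss m (t + 1) = c :=
      fun m hm => not_same m t (hmin m (by omega))
    -- maximality below
    have hmax : ∀ j < n + 1, BB.IsMax j ((pth t).1 j) := by
      intro j hj
      cases j with
      | zero => exact isMax_zero_level _
      | succ m =>
        intro k hk
        obtain ⟨c, hc1, hc2, hc3, hc4⟩ := hstr m (by omega)
        obtain ⟨c', hc1', hc2', hc3', hc4'⟩ := hstr (m + 1) (by omega)
        obtain ⟨hk1, hk2⟩ := cut_of_label m t k hk
        have hcc : c = c' * (qq m : ℤ) := by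
          have h1 : c * (gg m : ℤ) = c' * (qq m : ℤ) * (gg m : ℤ) := by
            rw [← hc1, hc1', gg_succ]; push_cast; ring
          exact mul_right_cancel₀ (by have := gg_pos m; omega) h1
        have hcut' : IsCut (m + 1) c' := by
          rw [← hc4']; exact isCut_st _ _
        have h2 := next_cut (m + 1) (t / (gg (m + 1) : ℤ)) c' hcut' (by omega)
        change ss (m + 1) t + (len (m + 1) (tt (m + 1) t) : ℤ) ≤ c' at h2
        have hq := qq_ge m
        have h3 : (ss (m + 1) t + (len (m + 1) (tt (m + 1) t) : ℤ)) * (qq m : ℤ) ≤ c := by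
          rw [hcc]; exact mul_le_mul_of_nonneg_right h2 (by omega)
        have h4 : (k : ℤ) < (len (m + 1) (tt (m + 1) t) : ℤ) * (qq m : ℤ) := by
          rw [wlen_eq] at hk1; exact_mod_cast hk1
        have h5 := cut_le_st m _ (t / (gg m : ℤ)) hk2 (by rw [hc2]; linarith)
        change ss (m + 1) t * (qq m : ℤ) + k ≤ ss m t at h5
        have h6 := pseq_label m t
        change k ≤ (pseq t (m + 1)).2
        omega
    have hminE : ∀ j < n + 1, BB.IsMin j ((pth (t + 1)).1 j) := by
      intro j hj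
      cases j with
      | zero => exact isMin_zero_level _
      | succ m =>
        intro k _
        obtain ⟨c, hc1, hc2, hc3, hc4⟩ := hstr m (by omega)
        obtain ⟨c', hc1', hc2', hc3', hc4'⟩ := hstr (m + 1) (by omega)
        have hcc : c = c' * (qq m : ℤ) := by
          have h1 : c * (gg m : ℤ) = c' * (qq m : ℤ) * (gg m : ℤ) := by
            rw [← hc1, hc1', gg_succ]; push_cast; ring
          exact mul_right_cancel₀ (by have := gg_pos m; omega) h1
        have h6 := pseq_label m (t + 1)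
        rw [hc4, hc4', hcc] at h6
        change (pseq (t + 1) (m + 1)).2 ≤ k
        omega
    obtain ⟨c, hc1, hc2, hc3, hc4⟩ := hstr n le_rfl
    have l1 := pseq_label n t
    have l2 := pseq_label n (t + 1)
    rw [← hn] at l2
    have hlt : ss n t ≤ c - 1 := by
      have := st_le n (t / (gg n : ℤ)); rw [hc2] at this
      change st n (t / (gg n : ℤ)) ≤ c - 1
      rw [hc2]; exact this
    have htt : tt (n + 1) (t + 1) = tt (n + 1) t := (tt_same (n + 1) t (t + 1) hn).symm
    have hsucc : BB.IsSucc (n + 1) ((pth t).1 (n + 1)) ((pth (t + 1)).1 (n + 1)) := by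
      refine ⟨htt, ?_, ?_⟩
      · change (pseq t (n + 1)).2 < (pseq (t + 1) (n + 1)).2
        omega
      · intro k hk hkl
        change (pseq t (n + 1)).2 < k at hkl
        change (pseq (t + 1) (n + 1)).2 ≤ k
        obtain ⟨hk1, hk2⟩ := cut_of_label n t k hk
        by_contra hcon
        push Not at hcon
        have h5 := cut_le_st n _ (t / (gg n : ℤ)) hk2 (by rw [hc2]; omega)
        change ss (n + 1) t * (qq n : ℤ) + k ≤ ss n t at h5
        omega
    refine ⟨n + 1, hmax, ?_, hsucc, hminE, ?_⟩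
    · intro hcon
      have h7 := ((pth (t + 1)).2.1 (n + 1)).2
      have h8 : ((pth (t + 1)).1 (n + 1)).1 = ((pth t).1 (n + 1)).1 := htt
      rw [h8] at h7
      have h9 := hcon _ h7
      have h10 := hsucc.2.1
      omega
    · intro m hm
      exact (edge_same (n + 1) t (t + 1) hn m hm).symm

/-! ### Windows -/

theorem start_copy (n v : ℕ) (hv : v < 2) (a a' : ℤ)
    (ha : idx n a = if v = 0 then 0 else al n) (ha' : idx n a' = if v = 0 then 0 else al n)
    (m : ℕ) (hm : m < len n v) : idx n (a + m) = idx n (a' + m) := by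
  rcases Nat.lt_or_ge v 1 with h | h
  · have hv0 : v = 0 := by omega
    subst hv0
    simp only [if_true, len] at ha ha' hm
    rw [idx_forward n a m (by omega), idx_forward n a' m (by omega), ha, ha']
  · have hv1 : v = 1 := by omega
    subst hv1
    simp only [one_ne_zero, if_false, len] at ha ha' hm
    have hm0 : m = 0 := by omega
    subst hm0
    simp [ha, ha']

theorem offset_eq (n : ℕ) (t t' : ℤ) (h : ∀ m ≤ n, pseq t m = pseq t' m) :
    t - ss n t * (gg n : ℤ) = t' - ss n t' * (gg n : ℤ) := by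
  induction n with
  | zero => rw [ss_zero_level, ss_zero_level, gg_zero]; simp
  | succ n ih =>
    have h1 := ih (fun m hm => h m (by omega))
    have l1 := pseq_label n t
    have l2 := pseq_label n t'
    rw [h (n + 1) le_rfl, l2] at l1
    rw [gg_succ]
    push_cast
    linear_combination h1 - (gg n : ℤ) * l1

theorem window_of_path (n : ℕ) (t t' : ℤ) (h : ∀ m ≤ n + 1, pseq t m = pseq t' m) (i : ℤ)
    (hi0 : -(gg n : ℤ) ≤ i) (hi1 : i < gg n) : x0 (t + i) = x0 (t' + i) := by
  have hδ := offset_eq (n + 1) t t' h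
  have hT : tt (n + 1) t = tt (n + 1) t' := congrArg Prod.fst (h (n + 1) le_rfl)
  have hgz : (0 : ℤ) < gg (n + 1) := by exact_mod_cast gg_pos (n + 1)
  set a := ss (n + 1) t with ha
  set a' := ss (n + 1) t' with ha'
  set g : ℤ := (gg (n + 1) : ℤ) with hg
  set δ := t - a * g with hδdef
  have hia : idx (n + 1) a = if tt (n + 1) t = 0 then 0 else al (n + 1) := idx_st _ _
  have hia' : idx (n + 1) a' = if tt (n + 1) t = 0 then 0 else al (n + 1) := by
    rw [hT]; exact idx_st _ _
  have hle : a ≤ t / g := st_le _ _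
  have hlt : t / g < a + len (n + 1) (tt (n + 1) t) := lt_st_add _ _
  have e := Int.mul_ediv_add_emod t g
  have m0 := Int.emod_nonneg t hgz.ne'
  have m1 := Int.emod_lt_of_pos t hgz
  have hδ0 : 0 ≤ δ := by
    have : a * g ≤ t / g * g := mul_le_mul_of_nonneg_right hle hgz.le
    linarith
  have hδ1 : δ < len (n + 1) (tt (n + 1) t) * g := by
    have : (t / g + 1) * g ≤ (a + len (n + 1) (tt (n + 1) t)) * g :=
      mul_le_mul_of_nonneg_right (by omega) hgz.le
    linarith
  have ht : t = a * g + δ := by rw [hδdef]; ring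
  have ht' : t' = a' * g + δ := by rw [hδ]; ring
  rcases lt_or_ge (δ + i) 0 with c1 | c1
  · rw [show t + i = a * g + (δ + i) by rw [ht]; ring,
      show t' + i = a' * g + (δ + i) by rw [ht']; ring,
      x0_near n a (δ + i) (by linarith) (by linarith [gg_pos n]),
      x0_near n a' (δ + i) (by linarith) (by linarith [gg_pos n])]
  rcases lt_or_ge (δ + i) (len (n + 1) (tt (n + 1) t) * g) with c2 | c2
  · have e' := Int.mul_ediv_add_emod (δ + i) g
    have m0' := Int.emod_nonneg (δ + i) hgz.ne'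
    have m1' := Int.emod_lt_of_pos (δ + i) hgz
    have d0 : 0 ≤ (δ + i) / g := Int.ediv_nonneg c1 hgz.le
    have d1 : (δ + i) / g < len (n + 1) (tt (n + 1) t) := Int.ediv_lt_of_lt_mul hgz c2
    obtain ⟨m, hm⟩ := Int.eq_ofNat_of_zero_le d0
    rw [hm] at e' d1
    have hcopy := start_copy (n + 1) (tt (n + 1) t) (typ_lt _ _) a a' hia hia' m
      (by exact_mod_cast d1)
    rw [show t + i = (a + m) * g + (δ + i) % g by rw [ht]; linear_combination -e',
      show t' + i = (a' + m) * g + (δ + i) % g by rw [ht']; linear_combination -e', x0_eq_iff]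
    exact copy (n + 1) _ _ hcopy _ m0' m1'
  · generalize hLdef : (len (n + 1) (tt (n + 1) t) : ℤ) = Lz at c2 hδ1
    have hr0 : 0 ≤ δ + i - Lz * g := by linarith
    have hr1 : δ + i - Lz * g < gg n := by linarith
    rw [show t + i = (a + Lz) * g + (δ + i - Lz * g) by linear_combination ht,
      show t' + i = (a' + Lz) * g + (δ + i - Lz * g) by linear_combination ht',
      x0_near n _ _ (by linarith [gg_pos n]) hr1,
      x0_near n _ _ (by linarith [gg_pos n]) hr1]

/-! ### Recognizability -/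

theorem recog (n : ℕ) : ∀ J : ℕ, ∃ W : ℕ, ∀ t t' : ℤ,
    (∀ i : ℤ, |i| ≤ W → x0 (t + i) = x0 (t' + i)) →
    t % (gg n : ℤ) = t' % (gg n : ℤ) ∧
      ∀ j : ℤ, |j| ≤ J → idx n (t / (gg n : ℤ) + j) = idx n (t' / (gg n : ℤ) + j) := by
  induction n with
  | zero =>
    intro J
    refine ⟨J, fun t t' h => ?_⟩
    rw [gg_zero]
    simp only [Nat.cast_one, Int.emod_one, Int.ediv_one, true_and]
    intro j hj
    exact (x0_eq_iff _ _).mp (h j hj)
  | succ n ih =>
    intro J
    obtain ⟨W, hW⟩ := ih ((J + 2) * qq n + lRun n * al n)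
    refine ⟨W, fun t t' h => ?_⟩
    obtain ⟨h1, h2⟩ := hW t t' h
    have hq := qq_ge n
    have hqz : (0 : ℤ) < qq n := by omega
    set k := t / (gg n : ℤ) with hk
    set k' := t' / (gg n : ℤ) with hk'
    have m0 := Int.emod_nonneg k hqz.ne'
    have m1 := Int.emod_lt_of_pos k hqz
    have e := Int.mul_ediv_add_emod k (qq n : ℤ)
    set r := k % (qq n : ℤ) with hr
    have hJq : (0 : ℤ) ≤ (J : ℤ) * qq n := by positivity
    have hLa : (0 : ℤ) ≤ (lRun n : ℤ) * al n := by positivity
    have hcast : (((J + 2) * qq n + lRun n * al n : ℕ) : ℤ) =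
        (J : ℤ) * qq n + 2 * qq n + (lRun n : ℤ) * al n := by push_cast; ring
    rw [hcast] at h2
    -- block start
    have h3 : ∀ j : ℕ, j < lRun n * al n → idx n (k' - r + j) ≠ al n := by
      intro j hj
      have hjz : (j : ℤ) < (lRun n : ℤ) * al n := by exact_mod_cast hj
      have h4 := h2 (-r + j) (by rw [abs_le]; constructor <;> linarith)
      rw [show k' - r + (j : ℤ) = k' + (-r + j) by ring, ← h4,
        show k + (-r + (j : ℤ)) = k / (qq n : ℤ) * (qq n : ℤ) + j by linear_combination -e,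
        idx_run n _ j hj]
      have := Nat.mod_lt j (al_pos n)
      omega
    obtain ⟨m', hm'⟩ := dvd_of_run n (k' - r) h3
    have hu := (Int.ediv_emod_unique (a := k') (b := (qq n : ℤ)) (r := r) (q := m')
      hqz).2 ⟨by linear_combination -hm', m0, m1⟩
    constructor
    · -- residues modulo gg (n+1)
      have hgz : (0 : ℤ) < gg n := by exact_mod_cast gg_pos n
      have g0 := Int.emod_nonneg t hgz.ne'
      have g1 := Int.emod_lt_of_pos t hgz
      have et := Int.mul_ediv_add_emod t (gg n : ℤ)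
      have et' := Int.mul_ediv_add_emod t' (gg n : ℤ)
      rw [← hk] at et
      rw [← hk'] at et'
      have hgs : (gg (n + 1) : ℤ) = gg n * qq n := by rw [gg_succ]; push_cast; ring
      have hb : r * (gg n : ℤ) + t % (gg n : ℤ) < (gg (n + 1) : ℤ) := by
        rw [hgs]
        have : (r + 1) * (gg n : ℤ) ≤ (qq n : ℤ) * gg n :=
          mul_le_mul_of_nonneg_right (by omega) hgz.le
        linarith
      have hb0 : 0 ≤ r * (gg n : ℤ) + t % (gg n : ℤ) := by
        have : 0 ≤ r * (gg n : ℤ) := mul_nonneg m0 hgz.le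
        linarith
      have hgz' : (0 : ℤ) < gg (n + 1) := by exact_mod_cast gg_pos (n + 1)
      have u1 := (Int.ediv_emod_unique (a := t) (b := (gg (n + 1) : ℤ))
        (r := r * (gg n : ℤ) + t % (gg n : ℤ)) (q := k / (qq n : ℤ)) hgz').2
        ⟨by rw [hgs]; linear_combination et + (gg n : ℤ) * e, hb0, hb⟩
      have u2 := (Int.ediv_emod_unique (a := t') (b := (gg (n + 1) : ℤ))
        (r := r * (gg n : ℤ) + t % (gg n : ℤ)) (q := m') hgz').2
        ⟨by rw [hgs, h1]; linear_combination et' - (gg n : ℤ) * hm', hb0, hb⟩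
      rw [u1.2, u2.2]
    · intro j hj
      rw [ediv_gg_succ, ediv_gg_succ, ← hk, ← hk', hu.1]
      by_contra hne
      obtain ⟨s, hs1, hs2⟩ := idx_sep n _ _ hne
      apply hs2
      have hsz : (s : ℤ) < qq n := by exact_mod_cast hs1
      have hj' := abs_le.mp hj
      have hjq1 : j * (qq n : ℤ) ≤ (J : ℤ) * qq n := mul_le_mul_of_nonneg_right hj'.2 hqz.le
      have hjq2 : -((J : ℤ) * qq n) ≤ j * (qq n : ℤ) := by
        have := mul_le_mul_of_nonneg_right hj'.1 hqz.le
        linarith
      have h5 := h2 (-r + j * (qq n : ℤ) + s) (by rw [abs_le]; constructor <;> linarith)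
      rw [show (k / (qq n : ℤ) + j) * (qq n : ℤ) + (s : ℤ) =
          k + (-r + j * (qq n : ℤ) + s) by linear_combination e, h5]
      congr 1
      linear_combination hm'

/-- windows of `x0` determine initial segments of paths -/
theorem path_of_window (n : ℕ) : ∃ W : ℕ, ∀ t t' : ℤ,
    (∀ i : ℤ, |i| ≤ W → x0 (t + i) = x0 (t' + i)) → ∀ m ≤ n, pseq t m = pseq t' m := by
  have hone : ∀ n : ℕ, ∃ W : ℕ, ∀ t t' : ℤ,
      (∀ i : ℤ, |i| ≤ W → x0 (t + i) = x0 (t' + i)) → pseq t n = pseq t' n := by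
    intro n
    have hty : ∀ (n : ℕ) (t t' : ℤ), idx n (t / (gg n : ℤ)) = idx n (t' / (gg n : ℤ)) →
        tt n t = tt n t' ∧ ss n t - t / (gg n : ℤ) = ss n t' - t' / (gg n : ℤ) := by
      intro n t t' h
      unfold tt typ ss st offs
      rw [h]
      exact ⟨rfl, by ring⟩
    cases n with
    | zero =>
      obtain ⟨W, hW⟩ := recog 0 0
      refine ⟨W, fun t t' h => ?_⟩
      have h1 := (hW t t' h).2 0 (by simp)
      simp only [add_zero] at h1
      exact Prod.ext (hty 0 t t' h1).1 rfl
    | succ n =>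
      obtain ⟨W, hW⟩ := recog (n + 1) 0
      obtain ⟨W', hW'⟩ := recog n 0
      refine ⟨max W W', fun t t' h => ?_⟩
      have h1 := hW t t' (fun i hi => h i (hi.trans (by exact_mod_cast le_max_left W W')))
      have h2 := hW' t t' (fun i hi => h i (hi.trans (by exact_mod_cast le_max_right W W')))
      have h3 := h1.2 0 (by simp)
      have h4 := h2.2 0 (by simp)
      simp only [add_zero] at h3 h4
      have h5 := hty (n + 1) t t' h3
      have h6 := hty n t t' h4
      refine Prod.ext h5.1 ?_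
      change (ss n t - ss (n + 1) t * (qq n : ℤ)).toNat =
        (ss n t' - ss (n + 1) t' * (qq n : ℤ)).toNat
      congr 1
      -- t / g_n - (t / g_{n+1}) q = (t / g_n) % q is determined by t % g_{n+1}
      have hgz : (0 : ℤ) < gg n := by exact_mod_cast gg_pos n
      have e1 := Int.mul_ediv_add_emod t (gg n : ℤ)
      have e2 := Int.mul_ediv_add_emod t' (gg n : ℤ)
      have e3 := Int.mul_ediv_add_emod t (gg (n + 1) : ℤ)
      have e4 := Int.mul_ediv_add_emod t' (gg (n + 1) : ℤ)
      have hgs : (gg (n + 1) : ℤ) = gg n * qq n := by rw [gg_succ]; push_cast; ring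
      have h7 : t / (gg n : ℤ) - t / (gg (n + 1) : ℤ) * (qq n : ℤ) =
          t' / (gg n : ℤ) - t' / (gg (n + 1) : ℤ) * (qq n : ℤ) := by
        have h8 : (gg n : ℤ) * (t / (gg n : ℤ) - t / (gg (n + 1) : ℤ) * (qq n : ℤ)) =
            (gg n : ℤ) * (t' / (gg n : ℤ) - t' / (gg (n + 1) : ℤ) * (qq n : ℤ)) := by
          have a1 : (gg n : ℤ) * (t / (gg (n + 1) : ℤ) * (qq n : ℤ)) =
            (gg (n + 1) : ℤ) * (t / (gg (n + 1) : ℤ)) := by
              linear_combination (-(t / (gg (n + 1) : ℤ))) * hgs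
          have a2 : (gg n : ℤ) * (t' / (gg (n + 1) : ℤ) * (qq n : ℤ)) =
            (gg (n + 1) : ℤ) * (t' / (gg (n + 1) : ℤ)) := by
              linear_combination (-(t' / (gg (n + 1) : ℤ))) * hgs
          rw [mul_sub, mul_sub, a1, a2]
          linear_combination e1 - e2 - e3 + e4 - h2.1 + h1.1
        exact mul_left_cancel₀ hgz.ne' h8
      linear_combination h6.2 - (qq n : ℤ) * h5.2 + h7
  induction n with
  | zero =>
    obtain ⟨W, hW⟩ := hone 0
    refine ⟨W, fun t t' h m hm => ?_⟩
    have : m = 0 := by omega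
    rw [this]; exact hW t t' h
  | succ n ih =>
    obtain ⟨W, hW⟩ := ih
    obtain ⟨W', hW'⟩ := hone (n + 1)
    refine ⟨max W W', fun t t' h m hm => ?_⟩
    rcases Nat.lt_or_ge m (n + 1) with h1 | h1
    · exact hW t t' (fun i hi => h i (hi.trans (by exact_mod_cast le_max_left W W'))) m (by omega)
    · have : m = n + 1 := by omega
      rw [this]
      exact hW' t t' (fun i hi => h i (hi.trans (by exact_mod_cast le_max_right W W')))

/-! ### Density of the paths of integers -/

theorem dense_aux (n : ℕ) : ∀ (x : BB.Path) (a : ℤ),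
    idx n a = (if (x.1 n).1 = 0 then 0 else al n) →
    ∃ t : ℤ, ss n t = a ∧ ∀ m ≤ n, pseq t m = x.1 m := by
  induction n with
  | zero =>
    intro x a ha
    refine ⟨a, ss_zero_level a, fun m hm => ?_⟩
    have hm0 : m = 0 := by omega
    subst hm0
    have hv : (x.1 0).1 < 2 := (x.2.1 0).1
    refine Prod.ext ?_ (label_zero_level x).symm
    change tt 0 a = (x.1 0).1
    have h1 := st_of_start 0 (x.1 0).1 hv a ha 0 (by
      unfold len; split_ifs
      · exact al_pos 0
      · exact Nat.zero_lt_one)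
    unfold tt
    rw [gg_zero]
    simpa using h1.2
  | succ n ih =>
    intro x a ha
    have hv : (x.1 (n + 1)).1 < 2 := (x.2.1 (n + 1)).1
    have hk : (x.1 (n + 1)).2 ∈ bEdge (n + 1) (x.1 (n + 1)).1 := (x.2.1 (n + 1)).2
    have hsrc : (if idx n (base n (x.1 (n + 1)).1 + (x.1 (n + 1)).2) = 0 then 0 else 1) =
        (x.1 n).1 := x.2.2 n
    rw [mem_bEdge_iff] at hk
    set v := (x.1 (n + 1)).1 with hvdef
    set k := (x.1 (n + 1)).2 with hkdef
    have hcopy := word_copy n v hv a ha k hk.1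
    have hal := al_pos n
    obtain ⟨t, ht1, ht2⟩ := ih x (a * (qq n : ℤ) + k) (by
      rw [hcopy]
      rcases hk.2 with h1 | h1
      · rw [h1] at hsrc ⊢
        rw [if_pos rfl] at hsrc
        rw [if_pos hsrc.symm]
      · rw [h1] at hsrc ⊢
        rw [if_neg (by omega)] at hsrc
        rw [if_neg (by omega)])
    have hq := qq_ge n
    have hdiv : (a * (qq n : ℤ) + (k : ℤ)) / (qq n : ℤ) = a + ((k / qq n : ℕ) : ℤ) := by
      have hdm := Nat.div_add_mod k (qq n)
      have hml := Nat.mod_lt k (by omega : 0 < qq n)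
      have hkz : (k : ℤ) = (qq n : ℤ) * ((k / qq n : ℕ) : ℤ) + ((k % qq n : ℕ) : ℤ) := by
        exact_mod_cast hdm.symm
      have hu := (Int.ediv_emod_unique (a := a * (qq n : ℤ) + (k : ℤ)) (b := (qq n : ℤ))
        (r := ((k % qq n : ℕ) : ℤ)) (q := a + ((k / qq n : ℕ) : ℤ)) (by omega)).2
        ⟨by rw [hkz]; push_cast; ring, by positivity, by exact_mod_cast hml⟩
      exact hu.1
    have hkl : k / qq n < len (n + 1) v := by
      apply Nat.div_lt_of_lt_mul
      rw [mul_comm, ← wlen_eq]; exact hk.1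
    have hst := st_of_start (n + 1) v hv a ha (k / qq n) hkl
    have hs : ss (n + 1) t = a := by rw [ss_succ, ht1, hdiv]; exact hst.1
    have htt : tt (n + 1) t = v := by rw [tt_succ, ht1, hdiv]; exact hst.2
    refine ⟨t, hs, fun m hm => ?_⟩
    rcases Nat.lt_or_ge m (n + 1) with h1 | h1
    · exact ht2 m (by omega)
    · have hmn : m = n + 1 := by omega
      subst hmn
      refine Prod.ext htt ?_
      have := pseq_label n t
      rw [hs, ht1] at this
      have h3 : ((pseq t (n + 1)).2 : ℤ) = k := by rw [this]; ring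
      exact_mod_cast h3

theorem dense_paths (x : BB.Path) (n : ℕ) : ∃ t : ℤ, ∀ m ≤ n, pseq t m = x.1 m := by
  obtain ⟨t, _, ht⟩ := dense_aux n x (if (x.1 n).1 = 0 then 0 else -1) (by
    split_ifs
    · exact idx_zero n
    · exact idx_neg_one n)
  exact ⟨t, ht⟩

end Pool.Agent.H94.Toep
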