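import Pool.Agent.H94.Toep.Defs

/-!
# General facts on Bratteli–Vershik systems
-/

namespace Pool.Agent.H94.Toep

open Set Filter Topology

namespace OrdBratteli

variable (B : OrdBratteli)

/-- vertex of level `n` on the path -/
def vert (x : B.Path) : ℕ → ℕ
  | 0 => 0
  | n + 1 => (x.1 n).1

theorem vert_lt (x : B.Path) (n : ℕ) : B.vert x n < B.size n := by
  cases n with
  | zero => rw [B.size_zero]; exact Nat.zero_lt_one
  | succ n => exact (x.2.1 n).1

theorem src_eq_vert (x : B.Path) (n : ℕ) : B.src n (x.1 n).1 (x.1 n).2 = B.vert x n := by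
  cases n with
  | zero =>
    have h := B.src_lt 0 (x.1 0).1 (x.1 0).2 (x.2.1 0).1 (x.2.1 0).2
    rw [B.size_zero] at h
    change _ = 0
    omega
  | succ n => exact x.2.2 n

/-- sum of the path numbers of the edges into `v` with label `< k` -/
def below (n v k : ℕ) : ℕ :=
  ∑ l ∈ (B.edge n v).filter (· < k), B.pathNum n (B.src n v l)

/-- rank of the initial segment of length `n` among the paths to the vertex of level `n` -/
def pos (x : B.Path) : ℕ → ℕ
  | 0 => 0
  | n + 1 => B.below n (x.1 n).1 (x.1 n).2 + pos x n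

theorem pathNum_pos (n v : ℕ) (hv : v < B.size n) : 0 < B.pathNum n v := by
  induction n generalizing v with
  | zero => exact Nat.zero_lt_one
  | succ n ih =>
    rw [pathNum]
    apply Finset.sum_pos
    · intro k hk
      exact ih _ (B.src_lt n v k hv hk)
    · exact B.edge_nonempty n v hv

theorem below_add_le (n v k l : ℕ) (hk : k ∈ B.edge n v) (hkl : k < l) :
    B.below n v k + B.pathNum n (B.src n v k) ≤ B.below n v l := by
  unfold below
  have h1 : k ∉ (B.edge n v).filter (· < k) := by simp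
  have h2 := Finset.sum_insert (f := fun l => B.pathNum n (B.src n v l)) h1
  rw [add_comm, ← h2]
  apply Finset.sum_le_sum_of_subset
  intro m hm
  rw [Finset.mem_insert, Finset.mem_filter] at hm
  rw [Finset.mem_filter]
  rcases hm with rfl | hm
  · exact ⟨hk, hkl⟩
  · exact ⟨hm.1, hm.2.trans hkl⟩

theorem below_add_eq (n v k l : ℕ) (hk : k ∈ B.edge n v) (hkl : k < l)
    (h : ∀ m ∈ B.edge n v, k < m → l ≤ m) :
    B.below n v k + B.pathNum n (B.src n v k) = B.below n v l := by
  unfold below
  have h1 : k ∉ (B.edge n v).filter (· < k) := by simp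
  have h2 := Finset.sum_insert (f := fun l => B.pathNum n (B.src n v l)) h1
  rw [add_comm, ← h2]
  congr 1
  ext m
  rw [Finset.mem_insert, Finset.mem_filter, Finset.mem_filter]
  constructor
  · rintro (rfl | hm)
    · exact ⟨hk, hkl⟩
    · exact ⟨hm.1, hm.2.trans hkl⟩
  · rintro ⟨hm1, hm2⟩
    rcases lt_trichotomy m k with h2 | h2 | h2
    · right; exact ⟨hm1, h2⟩
    · left; exact h2
    · have := h m hm1 h2; omega

theorem below_max (n v k : ℕ) (hk : k ∈ B.edge n v) (h : ∀ m ∈ B.edge n v, m ≤ k) :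
    B.below n v k + B.pathNum n (B.src n v k) = B.pathNum (n + 1) v := by
  rw [B.below_add_eq n v k (k + 1) hk (Nat.lt_succ_self k) (fun m _ h2 => h2)]
  unfold below
  rw [pathNum]
  congr 1
  rw [Finset.filter_true_of_mem]
  intro m hm
  have := h m hm
  omega

theorem below_le (n v k : ℕ) (hk : k ∈ B.edge n v) :
    B.below n v k + B.pathNum n (B.src n v k) ≤ B.pathNum (n + 1) v := by
  refine (B.below_add_le n v k (k + 1) hk (Nat.lt_succ_self k)).trans ?_
  unfold below
  rw [pathNum]
  exact Finset.sum_le_sum_of_subset (Finset.filter_subset _ _)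

theorem pos_lt (x : B.Path) (n : ℕ) : B.pos x n < B.pathNum n (B.vert x n) := by
  induction n with
  | zero => exact Nat.zero_lt_one
  | succ n ih =>
    have h1 := B.below_le n (x.1 n).1 (x.1 n).2 (x.2.1 n).2
    rw [B.src_eq_vert x n] at h1
    change B.below n (x.1 n).1 (x.1 n).2 + B.pos x n < B.pathNum (n + 1) (x.1 n).1
    omega

theorem eq_of_pos_eq (x y : B.Path) (n : ℕ) (hv : B.vert x n = B.vert y n)
    (hp : B.pos x n = B.pos y n) : ∀ m < n, x.1 m = y.1 m := by
  induction n with
  | zero => intro m hm; omega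
  | succ n ih =>
    change (x.1 n).1 = (y.1 n).1 at hv
    change B.below n (x.1 n).1 (x.1 n).2 + B.pos x n = B.below n (y.1 n).1 (y.1 n).2 + B.pos y n
      at hp
    have hx := B.pos_lt x n
    have hy := B.pos_lt y n
    rw [← B.src_eq_vert x n] at hx
    rw [← B.src_eq_vert y n] at hy
    have hkx := (x.2.1 n).2
    have hky := (y.2.1 n).2
    rw [← hv] at hky hy hp
    have hk : (x.1 n).2 = (y.1 n).2 := by
      rcases lt_trichotomy (x.1 n).2 (y.1 n).2 with h | h | h
      · have := B.below_add_le n (x.1 n).1 _ _ hkx h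
        omega
      · exact h
      · have := B.below_add_le n (x.1 n).1 _ _ hky h
        omega
    have hxy : x.1 n = y.1 n := Prod.ext hv hk
    intro m hm
    rcases Nat.lt_succ_iff_lt_or_eq.mp hm with h | h
    · refine ih ?_ ?_ m h
      · rw [← B.src_eq_vert x n, ← B.src_eq_vert y n, hxy]
      · rw [hk] at hp; omega
    · rw [h]; exact hxy

theorem pos_min (x : B.Path) (n : ℕ) (h : ∀ j < n, B.IsMin j (x.1 j)) : B.pos x n = 0 := by
  induction n with
  | zero => rfl
  | succ n ih =>
    change B.below n (x.1 n).1 (x.1 n).2 + B.pos x n = 0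
    rw [ih (fun j hj => h j (by omega))]
    unfold below
    rw [Finset.filter_false_of_mem]
    · rfl
    · intro k hk
      have := h n (Nat.lt_succ_self n) k hk
      omega

theorem pos_max (x : B.Path) (n : ℕ) (h : ∀ j < n, B.IsMax j (x.1 j)) :
    B.pos x n + 1 = B.pathNum n (B.vert x n) := by
  induction n with
  | zero => rfl
  | succ n ih =>
    have h1 := ih (fun j hj => h j (by omega))
    have h2 := B.below_max n (x.1 n).1 (x.1 n).2 (x.2.1 n).2 (h n (Nat.lt_succ_self n))
    rw [B.src_eq_vert x n] at h2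
    change B.below n (x.1 n).1 (x.1 n).2 + B.pos x n + 1 = B.pathNum (n + 1) (x.1 n).1
    omega

theorem vershik_cases {x y : B.Path} (h : B.VershikRel x y) (n : ℕ) :
    ((∀ j < n, B.IsMax j (x.1 j)) ∧ ∀ j < n, B.IsMin j (y.1 j)) ∨
      (B.vert y n = B.vert x n ∧ B.pos y n = B.pos x n + 1) := by
  rcases h with ⟨h1, h2⟩ | ⟨k, h1, _, h3, h4, h5⟩
  · left; exact ⟨fun j _ => h1 j, fun j _ => h2 j⟩
  rcases Nat.lt_or_ge k n with hk | hk
  · right
    induction n with
    | zero => omega
    | succ n ih =>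
      rcases Nat.lt_succ_iff_lt_or_eq.mp hk with hlt | heq
      · have h6 := ih hlt
        have h7 := h5 n hlt
        refine ⟨?_, ?_⟩
        · change (y.1 n).1 = (x.1 n).1
          rw [h7]
        · change B.below n (y.1 n).1 (y.1 n).2 + B.pos y n =
            B.below n (x.1 n).1 (x.1 n).2 + B.pos x n + 1
          rw [h7, h6.2]; ring
      · subst heq
        obtain ⟨h8, h9, h10⟩ := h3
        have hx := B.pos_max x k h1
        have hy := B.pos_min y k h4
        have h11 := B.below_add_eq k (x.1 k).1 (x.1 k).2 (y.1 k).2 (x.2.1 k).2 h9 h10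
        rw [B.src_eq_vert x k] at h11
        refine ⟨h8, ?_⟩
        change B.below k (y.1 k).1 (y.1 k).2 + B.pos y k =
          B.below k (x.1 k).1 (x.1 k).2 + B.pos x k + 1
        rw [hy, h8]
        omega
  · left
    exact ⟨fun j hj => h1 j (by omega), fun j hj => h4 j (by omega)⟩

/-! ### Compactness of the path space -/

theorem isClosed_isPath : IsClosed {x : ℕ → ℕ × ℕ | B.IsPath x} := by
  have h1 : {x : ℕ → ℕ × ℕ | B.IsPath x} =
      (⋂ n, {x : ℕ → ℕ × ℕ | x n ∈ {e : ℕ × ℕ | e.1 < B.size (n + 1) ∧ e.2 ∈ B.edge n e.1}}) ∩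
      ⋂ n, {x : ℕ → ℕ × ℕ | (x n, x (n + 1)) ∈
        {e : (ℕ × ℕ) × (ℕ × ℕ) | B.src (n + 1) e.2.1 e.2.2 = e.1.1}} := by
    ext x
    simp only [IsPath, mem_inter_iff, mem_iInter, mem_ofPred_eq]
  rw [h1]
  apply IsClosed.inter
  · apply isClosed_iInter
    intro n
    exact (isClosed_discrete _).preimage (continuous_apply n)
  · apply isClosed_iInter
    intro n
    exact (isClosed_discrete _).preimage ((continuous_apply n).prodMk (continuous_apply (n + 1)))

theorem finite_edges (n : ℕ) : {e : ℕ × ℕ | e.1 < B.size (n + 1) ∧ e.2 ∈ B.edge n e.1}.Finite := by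
  have h : {e : ℕ × ℕ | e.1 < B.size (n + 1) ∧ e.2 ∈ B.edge n e.1} ⊆
      ↑((Finset.range (B.size (n + 1))).biUnion
        (fun v => (B.edge n v).image (fun k => (v, k)))) := by
    rintro ⟨v, k⟩ ⟨h1, h2⟩
    simp only [Finset.coe_biUnion, mem_iUnion, Finset.coe_range, mem_Iio, Finset.coe_image]
    exact ⟨v, h1, k, h2, rfl⟩
  exact (Finset.finite_toSet _).subset h

theorem isCompact_isPath : IsCompact {x : ℕ → ℕ × ℕ | B.IsPath x} := by
  have h1 : IsCompact (Set.pi univ
      (fun n => {e : ℕ × ℕ | e.1 < B.size (n + 1) ∧ e.2 ∈ B.edge n e.1})) :=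
    isCompact_univ_pi (fun n => (B.finite_edges n).isCompact)
  refine h1.of_isClosed_subset B.isClosed_isPath ?_
  intro x hx n _
  exact hx.1 n

instance : CompactSpace B.Path := isCompact_iff_compactSpace.mp B.isCompact_isPath

instance : T2Space B.Path := inferInstanceAs (T2Space {x : ℕ → ℕ × ℕ // B.IsPath x})

/-- the cylinder around `x` of length `n` is open -/
theorem isOpen_cyl (x : B.Path) (n : ℕ) : IsOpen {y : B.Path | ∀ m < n, y.1 m = x.1 m} := by
  have h1 : {y : B.Path | ∀ m < n, y.1 m = x.1 m} =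
      Subtype.val ⁻¹' (PiNat.cylinder x.1 n) := by
    ext y
    rfl
  rw [h1]
  exact (PiNat.isOpen_cylinder _ x.1 n).preimage continuous_subtype_val

theorem exists_cyl {U : Set B.Path} (hU : IsOpen U) (x : B.Path) (hx : x ∈ U) :
    ∃ n : ℕ, ∀ y : B.Path, (∀ m < n, y.1 m = x.1 m) → y ∈ U := by
  obtain ⟨V, hV, rfl⟩ := isOpen_induced_iff.mp hU
  have hb := PiNat.isTopologicalBasis_cylinders (E := fun _ : ℕ => ℕ × ℕ)
  obtain ⟨C, ⟨z, n, rfl⟩, hxC, hCV⟩ := hb.exists_subset_of_mem_open hx hV
  refine ⟨n, fun y hy => hCV ?_⟩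
  rw [PiNat.mem_cylinder_iff] at hxC ⊢
  intro i hi
  rw [hy i hi]
  exact hxC i hi

/-- a continuous function with discrete values depends on an initial segment only -/
theorem exists_depth {α : Type*} [TopologicalSpace α] [DiscreteTopology α] (f : B.Path → α)
    (hf : Continuous f) : ∃ n : ℕ, ∀ x y : B.Path, (∀ m < n, x.1 m = y.1 m) → f x = f y := by
  have hloc : ∀ x : B.Path, ∃ n : ℕ, ∀ y : B.Path, (∀ m < n, y.1 m = x.1 m) → f y = f x := by
    intro x
    exact B.exists_cyl ((isOpen_discrete {f x}).preimage hf) x rfl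
  choose d hd using hloc
  obtain ⟨t, ht⟩ := CompactSpace.elim_nhds_subcover
    (fun x : B.Path => {y : B.Path | ∀ m < d x, y.1 m = x.1 m})
    (fun x => (B.isOpen_cyl x (d x)).mem_nhds (fun m _ => rfl))
  refine ⟨t.sup d, fun x y hxy => ?_⟩
  have hx : x ∈ (⊤ : Set B.Path) := trivial
  rw [← ht] at hx
  simp only [mem_iUnion] at hx
  obtain ⟨z, hz, hxz⟩ := hx
  have h1 : d z ≤ t.sup d := Finset.le_sup hz
  rw [hd z x hxz]
  refine (hd z y (fun m hm => ?_)).symm
  rw [← hxy m (by omega)]
  exact hxz m hm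

theorem continuous_pos (n : ℕ) : Continuous (fun x : B.Path => B.pos x n) := by
  induction n with
  | zero => exact continuous_const
  | succ n ih =>
    change Continuous (fun x : B.Path => B.below n (x.1 n).1 (x.1 n).2 + B.pos x n)
    refine Continuous.add ?_ ih
    have h1 : Continuous (fun x : B.Path => x.1 n) :=
      (continuous_apply n).comp continuous_subtype_val
    have h2 : Continuous (fun e : ℕ × ℕ => B.below n e.1 e.2) := continuous_of_discreteTopology
    exact h2.comp h1

end OrdBratteli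

end Pool.Agent.H94.Toep
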